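import Mathlib
import Pool.Agent.H171R2.EPGraph

/-!
# Substituting a graph for a vertex of the 3 x 3 rook's graph
-/

set_option autoImplicit false

namespace Pool.Agent.Y27.EP

open SimpleGraph Pool.Agent.H171R2.EP Pool.Agent.H171R2.Hole

/-- The eight squares of the `3 x 3` board other than `(0,0)`. -/
def pos : Fin 8 → Fin 3 × Fin 3 :=
  ![(0, 1), (0, 2), (1, 0), (2, 0), (1, 1), (1, 2), (2, 1), (2, 2)]

/-- The `3 x 3` rook's graph with the square `(0,0)` replaced by the graph `H`: the vertices are the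
eight other squares (two of them adjacent when they share a row or a column) and the vertices of
`H` (adjacent as in `H`); a square is adjacent to every vertex of `H` if it lies in row `0` or in
column `0`, and to none of them otherwise. -/
def rookSub {V : Type} (H : SimpleGraph V) : SimpleGraph (Fin 8 ⊕ V) where
  Adj
    | .inl a, .inl b => a ≠ b ∧ ((pos a).1 = (pos b).1 ∨ (pos a).2 = (pos b).2)
    | .inl a, .inr _ => (pos a).1 = 0 ∨ (pos a).2 = 0
    | .inr _, .inl b => (pos b).1 = 0 ∨ (pos b).2 = 0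
    | .inr h, .inr h' => H.Adj h h'
  symm := by
    constructor
    rintro (a | h) (b | h') hab
    · exact ⟨hab.1.symm, hab.2.imp Eq.symm Eq.symm⟩
    · exact hab
    · exact hab
    · exact SimpleGraph.Adj.symm (G := H) hab
  loopless := by
    constructor
    rintro (a | h) hab
    · exact hab.1 rfl
    · exact H.loopless.irrefl h hab

section
variable {V : Type} (H : SimpleGraph V)

theorem adj_ll (a b : Fin 8) : (rookSub H).Adj (.inl a) (.inl b) ↔
    a ≠ b ∧ ((pos a).1 = (pos b).1 ∨ (pos a).2 = (pos b).2) := Iff.rfl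

theorem adj_lr (a : Fin 8) (h : V) : (rookSub H).Adj (.inl a) (.inr h) ↔
    (pos a).1 = 0 ∨ (pos a).2 = 0 := Iff.rfl

theorem adj_rl (a : Fin 8) (h : V) : (rookSub H).Adj (.inr h) (.inl a) ↔
    (pos a).1 = 0 ∨ (pos a).2 = 0 := Iff.rfl

theorem adj_rr (h h' : V) : (rookSub H).Adj (.inr h) (.inr h') ↔ H.Adj h h' := Iff.rfl

end

/-- adjacency masks of the `3 x 3` rook's graph, the square `(0,0)` being number `8` -/
def rookL : List ℕ := [338, 417, 312, 452, 101, 150, 153, 106, 15]

def rookA (v : ℕ) : ℕ := rookL.getD v 0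

/-- The rook's graph. -/
def rook : SimpleGraph (Fin 9) where
  Adj u v := (rookA u).testBit v = true
  symm := by
    have h : ∀ u v : Fin 9, (rookA u).testBit v = true → (rookA v).testBit u = true := by
      decide +kernel
    exact ⟨fun u v => h u v⟩
  loopless := by
    have h : ∀ u : Fin 9, ¬ (rookA u).testBit u = true := by decide +kernel
    exact ⟨h⟩

theorem rook_adj (u v : Fin 9) : rook.Adj u v ↔ (rookA u).testBit v = true := Iff.rfl

/-- The embedding of the rook's graph in `rookSub H` given by a vertex of `H`. -/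
def iota {V : Type} (H : SimpleGraph V) (h : V) : rook ↪g rookSub H where
  toFun i := if hi : (i : ℕ) < 8 then .inl ⟨i, hi⟩ else .inr h
  inj' := by
    intro i j hij
    dsimp only at hij
    by_cases hi : (i : ℕ) < 8
    · by_cases hj : (j : ℕ) < 8
      · rw [dif_pos hi, dif_pos hj] at hij
        have := Sum.inl.inj hij
        rw [Fin.mk.injEq] at this
        exact Fin.ext this
      · rw [dif_pos hi, dif_neg hj] at hij
        exact absurd hij (by simp)
    · by_cases hj : (j : ℕ) < 8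
      · rw [dif_neg hi, dif_pos hj] at hij
        exact absurd hij (by simp)
      · exact Fin.ext (by omega)
  map_rel_iff' := by
    intro i j
    change (rookSub H).Adj (if hi : (i : ℕ) < 8 then .inl ⟨i, hi⟩ else .inr h)
      (if hj : (j : ℕ) < 8 then .inl ⟨j, hj⟩ else .inr h) ↔ _
    rw [rook_adj]
    have e1 : ∀ i j : Fin 8, (i ≠ j ∧ ((pos i).1 = (pos j).1 ∨ (pos i).2 = (pos j).2)) ↔
      (rookA i).testBit j = true := by decide +kernel
    have e2 : ∀ i : Fin 8, ((pos i).1 = 0 ∨ (pos i).2 = 0) ↔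
      (rookA i).testBit 8 = true := by decide +kernel
    have e3 : ∀ i : Fin 8, ((pos i).1 = 0 ∨ (pos i).2 = 0) ↔
      (rookA 8).testBit i = true := by decide +kernel
    have e4 : (rookA 8).testBit 8 = false := by decide +kernel
    by_cases hi : (i : ℕ) < 8
    · by_cases hj : (j : ℕ) < 8
      · rw [dif_pos hi, dif_pos hj, adj_ll, e1]
      · rw [dif_pos hi, dif_neg hj, adj_lr, e2]
        have : (j : ℕ) = 8 := by omega
        rw [this]
    · have hi8 : (i : ℕ) = 8 := by omega
      by_cases hj : (j : ℕ) < 8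
      · rw [dif_neg hi, dif_pos hj, adj_rl, e3, hi8]
      · have hj8 : (j : ℕ) = 8 := by omega
        rw [dif_neg hi, dif_neg hj, adj_rr, hi8, hj8, e4]
        constructor
        · intro h'
          exact absurd h' (H.loopless.irrefl h)
        · intro h'
          exact absurd h' (by decide)

theorem iota_inl {V : Type} (H : SimpleGraph V) (h : V) (a : Fin 8) :
    iota H h (a.castSucc) = .inl a := by
  change (if hi : ((a.castSucc : Fin 9) : ℕ) < 8 then .inl ⟨_, hi⟩ else .inr h) = (.inl a : Fin 8 ⊕ V)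
  rw [dif_pos (by simp)]
  rfl

theorem iota_last {V : Type} (H : SimpleGraph V) (h : V) :
    iota H h (Fin.last 8) = .inr h := by
  change (if hi : ((Fin.last 8 : Fin 9) : ℕ) < 8 then .inl ⟨_, hi⟩ else .inr h) = (.inr h : Fin 8 ⊕ V)
  rw [dif_neg (by simp)]

/-- The embedding of `H` in `rookSub H`. -/
def embH {V : Type} (H : SimpleGraph V) : H ↪g rookSub H where
  toFun h := .inr h
  inj' := Sum.inr_injective
  map_rel_iff' := by
    intro a b
    exact Iff.rfl

/-! ## Even pairs -/

theorem rook_epf : EvenPairFree rook := by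
  refine evenPairFree_of rookA rook rook_adj ?_
  decide +kernel

theorem chordlessPath_map {V W : Type} {G : SimpleGraph V} {G' : SimpleGraph W} (φ : G ↪g G')
    {n : ℕ} {u v : V} (h : ChordlessPath G n u v) : ChordlessPath G' n (φ u) (φ v) := by
  obtain ⟨f, rfl, rfl⟩ := h
  exact ⟨f.trans φ, rfl, rfl⟩

theorem not_evenPair_map {V W : Type} {G : SimpleGraph V} {G' : SimpleGraph W} (φ : G ↪g G')
    (hG : EvenPairFree G) {u v : V} (huv : u ≠ v) : ¬ IsEvenPair G' (φ u) (φ v) := by
  rintro ⟨-, h⟩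
  exact hG u v ⟨huv, fun n hn => h n (chordlessPath_map φ hn)⟩

theorem rookSub_epf {V : Type} (H : SimpleGraph V) [Nonempty V] (hH : EvenPairFree H) :
    EvenPairFree (rookSub H) := by
  intro u v hev
  have hne := hev.1
  obtain ⟨h0⟩ := (inferInstance : Nonempty V)
  rcases u with a | h <;> rcases v with b | h'
  · rw [← iota_inl H h0 a, ← iota_inl H h0 b] at hev
    exact not_evenPair_map (iota H h0) rook_epf (fun hab => hne (by
      rw [Fin.castSucc_inj] at hab
      rw [hab])) hev
  · rw [← iota_inl H h' a, ← iota_last H h'] at hev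
    exact not_evenPair_map (iota H h') rook_epf (Fin.castSucc_lt_last a).ne hev
  · rw [← iota_inl H h b, ← iota_last H h] at hev
    exact not_evenPair_map (iota H h) rook_epf (Fin.castSucc_lt_last b).ne' hev
  · exact not_evenPair_map (embH H) hH (fun hab => hne (by rw [hab])) hev

/-! ## Line graphs -/

theorem not_line_of_claw {V : Type} (G : SimpleGraph V) (e a b c : V)
    (ha : G.Adj e a) (hb : G.Adj e b) (hc : G.Adj e c) (hab : a ≠ b) (hac : a ≠ c) (hbc : b ≠ c)
    (nab : ¬ G.Adj a b) (nac : ¬ G.Adj a c) (nbc : ¬ G.Adj b c) :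
    ¬ IsLineGraphOfBipartite G := by
  rintro ⟨W, H, -, ⟨φ⟩⟩
  have hadj : ∀ u v : V, H.lineGraph.Adj (φ u) (φ v) ↔ G.Adj u v := fun u v => φ.map_adj_iff
  have := lineGraph_clawFree H (φ e) (φ a) (φ b) (φ c) ((hadj _ _).2 ha) ((hadj _ _).2 hb)
    ((hadj _ _).2 hc) (fun h => hab (φ.injective h))
    (fun h => hac (φ.injective h)) (fun h => hbc (φ.injective h))
  rw [hadj, hadj, hadj] at this
  rcases this with h | h | h
  · exact nab h
  · exact nac h
  · exact nbc h

theorem triangle_free_of_two_col {W : Type} (H : SimpleGraph W) (hH : H.Colorable 2) (a b c : W)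
    (hab : H.Adj a b) (hac : H.Adj a c) (hbc : H.Adj b c) : False := by
  obtain ⟨φ⟩ := hH
  have h1 := φ.valid hab
  have h2 := φ.valid hac
  have h3 := φ.valid hbc
  generalize φ a = x at *
  generalize φ b = y at *
  generalize φ c = z at *
  revert x y z
  decide

theorem star_of_triangle {W : Type} (H : SimpleGraph W) (hH : H.Colorable 2) (e f g : H.edgeSet)
    (hef : H.lineGraph.Adj e f) (heg : H.lineGraph.Adj e g) (hfg : H.lineGraph.Adj f g)
    (x : W) (hxe : x ∈ (e : Sym2 W)) (hxf : x ∈ (f : Sym2 W)) : x ∈ (g : Sym2 W) := by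
  rw [lineGraph_adj_iff_exists] at hef heg hfg
  obtain ⟨hef, -⟩ := hef
  obtain ⟨-, a, hae, hag⟩ := heg
  obtain ⟨-, b, hbf, hbg⟩ := hfg
  by_contra hxg
  have hax : a ≠ x := by
    rintro rfl
    exact hxg hag
  have hbx : b ≠ x := by
    rintro rfl
    exact hxg hbg
  have he : (e : Sym2 W) = s(x, a) := (Sym2.mem_and_mem_iff hax.symm).1 ⟨hxe, hae⟩
  have hf : (f : Sym2 W) = s(x, b) := (Sym2.mem_and_mem_iff hbx.symm).1 ⟨hxf, hbf⟩
  have hab : a ≠ b := by
    rintro rfl
    exact hef (Subtype.ext (he.trans hf.symm))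
  have hg : (g : Sym2 W) = s(a, b) := (Sym2.mem_and_mem_iff hab).1 ⟨hag, hbg⟩
  have h1 : H.Adj x a := by
    rw [← mem_edgeSet, ← he]
    exact e.2
  have h2 : H.Adj x b := by
    rw [← mem_edgeSet, ← hf]
    exact f.2
  have h3 : H.Adj a b := by
    rw [← mem_edgeSet, ← hg]
    exact g.2
  exact triangle_free_of_two_col H hH x a b h1 h2 h3

theorem not_line_of_diamond {V : Type} (G : SimpleGraph V) (e f a b : V)
    (hef : G.Adj e f) (hea : G.Adj e a) (hfa : G.Adj f a) (heb : G.Adj e b) (hfb : G.Adj f b)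
    (hab : a ≠ b) (nab : ¬ G.Adj a b) : ¬ IsLineGraphOfBipartite G := by
  rintro ⟨W, H, hH, ⟨φ⟩⟩
  have hadj : ∀ u v : V, H.lineGraph.Adj (φ u) (φ v) ↔ G.Adj u v := fun u v => φ.map_adj_iff
  rw [← hadj] at hef hea hfa heb hfb nab
  obtain ⟨-, x, hxe, hxf⟩ := (lineGraph_adj_iff_exists).1 hef
  have h1 := star_of_triangle H hH _ _ _ hef hea hfa x hxe hxf
  have h2 := star_of_triangle H hH _ _ _ hef heb hfb x hxe hxf
  exact nab ((lineGraph_adj_iff_exists).2 ⟨fun h => hab (φ.injective h), x, h1, h2⟩)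

theorem rookSub_not_line {V : Type} (H : SimpleGraph V) (h h' : V) (hne : h ≠ h') :
    ¬ IsLineGraphOfBipartite (rookSub H) := by
  by_cases hadj : H.Adj h h'
  · refine not_line_of_diamond (rookSub H) (.inr h) (.inr h') (.inl 0) (.inl 2) ?_ ?_ ?_ ?_ ?_ ?_ ?_
    · exact hadj
    · rw [adj_rl]; decide
    · rw [adj_rl]; decide
    · rw [adj_rl]; decide
    · rw [adj_rl]; decide
    · intro he
      exact absurd (Sum.inl.inj he) (by decide)
    · rw [adj_ll]; decide
  · refine not_line_of_claw (rookSub H) (.inl 0) (.inr h) (.inr h') (.inl 4) ?_ ?_ ?_ ?_ ?_ ?_ ?_ ?_ ?_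
    · rw [adj_lr]; decide
    · rw [adj_lr]; decide
    · rw [adj_ll]; decide
    · intro he
      exact hne (Sum.inr.inj he)
    · simp
    · simp
    · exact hadj
    · rw [adj_rl]; decide
    · rw [adj_rl]; decide

/-! ## Complements -/

/-- the relabelling of the eight squares -/
def sig : Fin 8 → Fin 8 := ![4, 7, 5, 6, 3, 0, 1, 2]

def sigInv : Fin 8 → Fin 8 := ![5, 6, 7, 4, 0, 2, 3, 1]

def sigE : Fin 8 ≃ Fin 8 where
  toFun := sig
  invFun := sigInv
  left_inv := by decide
  right_inv := by decide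

/-- The complement of `rookSub H` is isomorphic to `rookSub Hᶜ`. -/
def complIso {V : Type} (H : SimpleGraph V) : rookSub Hᶜ ≃g (rookSub H)ᶜ where
  toEquiv := Equiv.sumCongr sigE (Equiv.refl V)
  map_rel_iff' := by
    have e1 : ∀ a b : Fin 8, (sig a ≠ sig b ∧ ¬ (sig a ≠ sig b ∧
        ((pos (sig a)).1 = (pos (sig b)).1 ∨ (pos (sig a)).2 = (pos (sig b)).2))) ↔
        (a ≠ b ∧ ((pos a).1 = (pos b).1 ∨ (pos a).2 = (pos b).2)) := by decide +kernel
    have e2 : ∀ a : Fin 8, ¬ ((pos (sig a)).1 = 0 ∨ (pos (sig a)).2 = 0) ↔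
        ((pos a).1 = 0 ∨ (pos a).2 = 0) := by decide +kernel
    rintro (a | h) (b | h')
    · change (rookSub H)ᶜ.Adj (.inl (sig a)) (.inl (sig b)) ↔ _
      rw [compl_adj, adj_ll, adj_ll, Ne, Sum.inl.injEq]
      exact e1 a b
    · change (rookSub H)ᶜ.Adj (.inl (sig a)) (.inr h') ↔ _
      rw [compl_adj, adj_lr, adj_lr, e2]
      simp
    · change (rookSub H)ᶜ.Adj (.inr h) (.inl (sig b)) ↔ _
      rw [compl_adj, adj_rl, adj_rl, e2]
      simp
    · change (rookSub H)ᶜ.Adj (.inr h) (.inr h') ↔ _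
      rw [compl_adj, adj_rr, adj_rr, compl_adj, Ne, Sum.inr.injEq]

theorem epf_of_iso {V W : Type} {G : SimpleGraph V} {G' : SimpleGraph W} (φ : G ≃g G')
    (hG : EvenPairFree G) : EvenPairFree G' := by
  intro u v hev
  have h1 : φ (φ.symm u) = u := φ.apply_symm_apply u
  have h2 : φ (φ.symm v) = v := φ.apply_symm_apply v
  have hne : φ.symm u ≠ φ.symm v := fun h => hev.1 (φ.symm.injective h)
  have := not_evenPair_map φ.toEmbedding hG hne
  apply this
  change IsEvenPair G' (φ (φ.symm u)) (φ (φ.symm v))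
  rw [h1, h2]
  exact hev

theorem line_of_iso {V W : Type} {G : SimpleGraph V} {G' : SimpleGraph W} (φ : G ≃g G')
    (h : IsLineGraphOfBipartite G') : IsLineGraphOfBipartite G := by
  obtain ⟨X, H, hH, ⟨ψ⟩⟩ := h
  exact ⟨X, H, hH, ⟨φ.trans ψ⟩⟩

end Pool.Agent.Y27.EP
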