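import Mathlib
import Pool.Agent.Y27.EP.Sub

set_option autoImplicit false

namespace Pool.Agent.Y27.EP

open SimpleGraph Pool.Agent.H171R2.EP Pool.Agent.H171R2.Hole

theorem holeRook : holeCheck 9 rookA (fun d => d % 2 == 0) = true := by decide +kernel

theorem rookSub_no_odd_hole {V : Type} (H : SimpleGraph V) [Nonempty V]
    (hH : ∀ n : ℕ, 4 ≤ n → Odd n → ¬ Nonempty (cycleGraph n ↪g H)) (n : ℕ) (hn : 4 ≤ n)
    (hodd : Odd n) : ¬ Nonempty (cycleGraph n ↪g rookSub H) := by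
  rintro ⟨g⟩
  have hn5 : 5 ≤ n := by
    rcases hodd with ⟨k, rfl⟩
    omega
  by_cases hall : ∀ i : Fin n, ∃ h, g i = .inr h
  · choose f hf using hall
    refine hH n hn hodd ⟨⟨⟨f, ?_⟩, ?_⟩⟩
    · intro i j hij
      apply g.injective
      rw [hf, hf, hij]
    · intro i j
      change H.Adj (f i) (f j) ↔ _
      rw [← adj_rr H, ← hf, ← hf, g.map_adj_iff]
  rw [not_forall] at hall
  obtain ⟨w0, hw0⟩ := hall
  by_cases htwo : ∃ i j : Fin n, i ≠ j ∧ (∃ h, g i = .inr h) ∧ (∃ h, g j = .inr h)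
  · exfalso
    obtain ⟨i0, j0, hij0, hi0, hj0⟩ := htwo
    set P : ℕ → Prop := fun k => ∃ hk : k < n, ∃ h, g ⟨k, hk⟩ = .inr h with hP
    set E : ℕ → ℕ → Prop := fun i j =>
      (i + 1 = j ∨ j + 1 = i) ∨ (i = 0 ∧ j + 1 = n) ∨ (j = 0 ∧ i + 1 = n) with hE
    have hcyc : ∀ (i j : ℕ) (hi : i < n) (hj : j < n),
        (rookSub H).Adj (g ⟨i, hi⟩) (g ⟨j, hj⟩) ↔ E i j := by
      intro i j hi hj
      rw [g.map_adj_iff, cyc_adj (by omega)]
    have key : ∀ i j k : ℕ, k < n → P i → P j → ¬ P k → (E k i ↔ E k j) := by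
      rintro i j k hk ⟨hi, h, hih⟩ ⟨hj, h', hjh⟩ hPk
      rw [← hcyc k i hk hi, ← hcyc k j hk hj, hih, hjh]
      rcases hgk : g ⟨k, hk⟩ with a | h''
      · rw [adj_lr, adj_lr]
      · exact absurd ⟨hk, h'', hgk⟩ hPk
    have hex : ∃ k, k + 1 < n ∧ ¬ (P k ↔ P (k + 1)) := by
      by_contra hcon
      rw [not_exists] at hcon
      have hstep : ∀ k, k < n → (P k ↔ P 0) := by
        intro k
        induction k with
        | zero => intro _; rfl
        | succ k ih =>
          intro hk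
          rw [← ih (by omega)]
          by_contra hc
          exact hcon k ⟨hk, fun h => hc h.symm⟩
      have h1 := hstep i0 i0.2
      have h2 := hstep w0 w0.2
      have h3 : P i0 := ⟨i0.2, hi0⟩
      have h4 : ¬ P w0 := by
        rintro ⟨_, h⟩
        exact hw0 h
      exact h4 (h2.2 (h1.1 h3))
    have hex2 : ∃ a w : ℕ, a < n ∧ w < n ∧ (a + 1 = w ∨ w + 1 = a) ∧ P a ∧ ¬ P w := by
      obtain ⟨k, hk, hkk⟩ := hex
      by_cases hPk : P k
      · exact ⟨k, k + 1, by omega, hk, Or.inl rfl, hPk, fun h => hkk ⟨fun _ => h, fun _ => hPk⟩⟩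
      · refine ⟨k + 1, k, hk, by omega, Or.inr rfl, ?_, hPk⟩
        by_contra h
        exact hkk ⟨fun h' => absurd h' hPk, fun h' => absurd h' h⟩
    obtain ⟨a, w, ha, hw, haw, hPa, hPw⟩ := hex2
    obtain ⟨b, hb, hba, hPb⟩ : ∃ b, b < n ∧ b ≠ a ∧ P b := by
      by_cases h : (i0 : ℕ) = a
      · exact ⟨j0, j0.2, fun h' => hij0 (Fin.ext (h.trans h'.symm)), j0.2, hj0⟩
      · exact ⟨i0, i0.2, h, i0.2, hi0⟩
    obtain ⟨c, hc, hcw, hac⟩ : ∃ c, c < n ∧ c ≠ w ∧ E a c := by
      rcases haw with haw | haw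
      · by_cases h0 : a = 0
        · exact ⟨n - 1, by omega, by omega, Or.inr (Or.inl ⟨h0, by omega⟩)⟩
        · exact ⟨a - 1, by omega, by omega, Or.inl (Or.inr (by omega))⟩
      · by_cases h0 : a + 1 = n
        · exact ⟨0, by omega, by omega, Or.inr (Or.inr ⟨rfl, h0⟩)⟩
        · exact ⟨a + 1, by omega, by omega, Or.inl (Or.inl rfl)⟩
    have hwa : E w a := by
      simp only [hE]
      omega
    have hwb : E w b := (key a b w hw hPa hPb hPw).1 hwa
    by_cases hPc : P c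
    · have hwc : E w c := (key a c w hw hPa hPc hPw).1 hwa
      simp only [hE] at hac hwa hwc
      omega
    · have hca : E c a := by
        simp only [hE] at hac ⊢
        omega
      have hcb : E c b := (key a b c hc hPa hPb hPc).1 hca
      simp only [hE] at hwa hwb hca hcb
      omega
  · have hex : ∃ h0 : V, ∀ i : Fin n, ∀ h, g i = .inr h → h = h0 := by
      by_cases h1 : ∃ i : Fin n, ∃ h, g i = .inr h
      · obtain ⟨i, h, hi⟩ := h1
        refine ⟨h, fun j h' hj => ?_⟩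
        by_cases hij : i = j
        · subst hij
          exact Sum.inr.inj (hj.symm.trans hi)
        · exact absurd ⟨i, j, hij, ⟨h, hi⟩, ⟨h', hj⟩⟩ htwo
      · exact ⟨Classical.arbitrary V, fun i h hi => absurd ⟨i, h, hi⟩ h1⟩
    obtain ⟨h0, hh0⟩ := hex
    have hr : ∀ i : Fin n, ∃ r : Fin 9, iota H h0 r = g i := by
      intro i
      rcases hgi : g i with a | h
      · exact ⟨a.castSucc, iota_inl H h0 a⟩
      · rw [hh0 i h hgi]
        exact ⟨Fin.last 8, iota_last H h0⟩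
    choose f hf using hr
    refine no_odd_hole rookA rook rook_adj holeRook n hn hodd ⟨⟨⟨f, ?_⟩, ?_⟩⟩
    · intro i j hij
      apply g.injective
      rw [← hf, ← hf, hij]
    · intro i j
      change rook.Adj (f i) (f j) ↔ _
      rw [← (iota H h0).map_adj_iff, hf, hf, g.map_adj_iff]

/-- an embedding of `H` into the complement of `G` is an embedding of the complement of `H` into
`G` -/
def complEmb' {V W : Type} (H : SimpleGraph W) (G : SimpleGraph V) (g : H ↪g Gᶜ) : Hᶜ ↪g G where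
  toEmbedding := g.toEmbedding
  map_rel_iff' := by
    intro a b
    change G.Adj (g a) (g b) ↔ _
    have h := g.map_adj_iff (v := a) (w := b)
    rw [compl_adj] at h
    rw [compl_adj, ← h]
    constructor
    · intro h1
      exact ⟨fun hab => h1.ne (by rw [hab]), fun h2 => h2.2 h1⟩
    · rintro ⟨h1, h2⟩
      by_contra h3
      exact h2 ⟨fun hab => h1 (g.injective hab), h3⟩

theorem rookSub_berge {V : Type} (H : SimpleGraph V) [Nonempty V] (hH : IsBerge H) :
    IsBerge (rookSub H) := by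
  intro n hn hodd
  refine ⟨rookSub_no_odd_hole H (fun m hm hm' => (hH m hm hm').1) n hn hodd, ?_⟩
  rintro ⟨g⟩
  refine rookSub_no_odd_hole Hᶜ (fun m hm hm' => ?_) n hn hodd
    ⟨(complEmb _ _ g).trans (complIso H).symm.toEmbedding⟩
  rintro ⟨g'⟩
  exact (hH m hm hm').2 ⟨complEmb' _ _ g'⟩

theorem berge_of_emb {V W : Type} {G : SimpleGraph V} {G' : SimpleGraph W} (φ : G ↪g G')
    (h : IsBerge G') : IsBerge G := by
  intro n hn hodd
  refine ⟨?_, ?_⟩
  · rintro ⟨g⟩
    exact (h n hn hodd).1 ⟨g.trans φ⟩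
  · rintro ⟨g⟩
    exact (h n hn hodd).2 ⟨g.trans φ⟩

end Pool.Agent.Y27.EP
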