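import Mathlib
import Pool.Agent.Y27.EP.Sub

set_option autoImplicit false

namespace Pool.Agent.Y27.EP

open SimpleGraph Pool.Agent.H171R2.EP Pool.Agent.H171R2.Hole

/-- `G` has a partition as in condition (a) of the definition of a 2-join: a partition of the vertex
set into `V₁` and `V₂`, with disjoint nonempty sets `A₁, B₁ ⊆ V₁` and `A₂, B₂ ⊆ V₂` such that the
edges between `V₁` and `V₂` are exactly the pairs between `A₁` and `A₂` and between `B₁` and
`B₂`. -/
def HasPartitionA {V : Type} (G : SimpleGraph V) : Prop :=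
  ∃ V₁ V₂ A₁ B₁ A₂ B₂ : Set V,
    V₁ ∪ V₂ = Set.univ ∧ Disjoint V₁ V₂ ∧
    A₁ ⊆ V₁ ∧ B₁ ⊆ V₁ ∧ A₂ ⊆ V₂ ∧ B₂ ⊆ V₂ ∧
    A₁.Nonempty ∧ B₁.Nonempty ∧ A₂.Nonempty ∧ B₂.Nonempty ∧
    Disjoint A₁ B₁ ∧ Disjoint A₂ B₂ ∧
    (∀ x ∈ V₁, ∀ y ∈ V₂, G.Adj x y ↔ (x ∈ A₁ ∧ y ∈ A₂) ∨ (x ∈ B₁ ∧ y ∈ B₂))

theorem HasPartitionA.of_twoJoin {V : Type} {G : SimpleGraph V} (h : HasTwoJoin G) :
    HasPartitionA G := by
  obtain ⟨V₁, V₂, A₁, B₁, A₂, B₂, h1, h2, h3, h4, h5, h6, h7, h8, h9, h10, h11, h12, h13, -, -⟩ := h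
  exact ⟨V₁, V₂, A₁, B₁, A₂, B₂, h1, h2, h3, h4, h5, h6, h7, h8, h9, h10, h11, h12, h13⟩

theorem joinCheck_noA {N : ℕ} (A : ℕ → ℕ) (G : SimpleGraph (Fin N))
    (hA : ∀ u v : Fin N, G.Adj u v ↔ (A u).testBit v = true) (h : joinCheck N A = true) :
    ¬ HasPartitionA G := by
  rintro ⟨V₁, V₂, A₁, B₁, A₂, B₂, hV, hd, hA1, hB1, hA2, hB2, ⟨a1, ha1⟩, ⟨b1, hb1⟩, ⟨a2, ha2⟩,
    ⟨b2, hb2⟩, hdis1, hdis2, hadj⟩
  rw [joinCheck, List.all_eq_true] at h
  have h1 := h a1 (List.mem_range.2 a1.2)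
  rw [List.all_eq_true] at h1
  have h2 := h1 a2 (List.mem_range.2 a2.2)
  have e1 : (A a1).testBit a2 = true :=
    (hA _ _).1 ((hadj a1 (hA1 ha1) a2 (hA2 ha2)).2 (Or.inl ⟨ha1, ha2⟩))
  rw [e1, Bool.not_true, Bool.false_or, List.all_eq_true] at h2
  have h3 := h2 b1 (List.mem_range.2 b1.2)
  have e2 : (A b1).testBit a2 = false := by
    rw [Bool.eq_false_iff]
    intro hc
    rcases (hadj b1 (hB1 hb1) a2 (hA2 ha2)).1 ((hA _ _).2 hc) with h | h
    · exact Set.disjoint_left.1 hdis1 h.1 hb1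
    · exact Set.disjoint_left.1 hdis2 ha2 h.2
  rw [e2, Bool.false_or, List.all_eq_true] at h3
  have h4 := h3 b2 (List.mem_range.2 b2.2)
  have e3 : (A b1).testBit b2 = true :=
    (hA _ _).1 ((hadj b1 (hB1 hb1) b2 (hB2 hb2)).2 (Or.inr ⟨hb1, hb2⟩))
  have e4 : (A a1).testBit b2 = false := by
    rw [Bool.eq_false_iff]
    intro hc
    rcases (hadj a1 (hA1 ha1) b2 (hB2 hb2)).1 ((hA _ _).2 hc) with h | h
    · exact Set.disjoint_left.1 hdis2 h.2 hb2
    · exact Set.disjoint_left.1 hdis1 ha1 h.1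
  have e5 : ((a1 : ℕ) == (b1 : ℕ)) = false := by
    rw [beq_eq_false_iff_ne]
    intro hc
    have : a1 = b1 := Fin.ext hc
    subst this
    exact Set.disjoint_left.1 hdis1 ha1 hb1
  have e6 : ((a2 : ℕ) == (b2 : ℕ)) = false := by
    rw [beq_eq_false_iff_ne]
    intro hc
    have : a2 = b2 := Fin.ext hc
    subst this
    exact Set.disjoint_left.1 hdis2 ha2 hb2
  rw [e3, e4, e5, e6] at h4
  simp only [Bool.not_true, Bool.false_or] at h4
  have h5 := rounds_sound A G hA V₁ V₂ A₁ B₁ A₂ B₂ hV hd hA1 hB1 hA2 hB2 hdis1 hdis2 hadj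
    a1 b1 a2 b2 ha1 hb1 ha2 hb2 N
      ((1 <<< (a1 : ℕ)) ||| (1 <<< (b1 : ℕ)) ||| (A a1 &&& A b1)) (by
      intro v hv
      rw [Nat.testBit_lor, Bool.or_eq_true, Nat.testBit_lor, Bool.or_eq_true, testBit_one_shl,
        testBit_one_shl, Nat.testBit_land, Bool.and_eq_true] at hv
      rcases hv with (hv | hv) | hv
      · have : a1 = v := Fin.ext (of_decide_eq_true hv)
        subst this
        exact hA1 ha1
      · have : b1 = v := Fin.ext (of_decide_eq_true hv)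
        subst this
        exact hB1 hb1
      · by_contra hv1
        have hv2 : v ∈ V₂ := by
          have : v ∈ V₁ ∪ V₂ := by rw [hV]; trivial
          rcases this with h | h
          · exact absurd h hv1
          · exact h
        have g1 := (hadj a1 (hA1 ha1) v hv2).1 ((hA _ _).2 hv.1)
        have g2 := (hadj b1 (hB1 hb1) v hv2).1 ((hA _ _).2 hv.2)
        rcases g1 with g1 | g1
        · rcases g2 with g2 | g2
          · exact Set.disjoint_left.1 hdis1 g2.1 hb1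
          · exact Set.disjoint_left.1 hdis2 g1.2 g2.2
        · exact Set.disjoint_left.1 hdis1 ha1 g1.1)
  rw [h5] at h4
  exact absurd h4 (by decide)

/-- A partition as in (a), written as a side `s` and a class `c` for every vertex. -/
def Lab {V : Type} (G : SimpleGraph V) (s : V → Bool) (c : V → Fin 3) : Prop :=
  (∀ x y, s x = true → s y = false → (G.Adj x y ↔ (c x = c y ∧ c x ≠ 2))) ∧
  (∃ x, s x = true ∧ c x = 0) ∧ (∃ x, s x = true ∧ c x = 1) ∧
  (∃ x, s x = false ∧ c x = 0) ∧ (∃ x, s x = false ∧ c x = 1)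

theorem Lab.swap {V : Type} {G : SimpleGraph V} {s : V → Bool} {c : V → Fin 3} (h : Lab G s c) :
    Lab G (fun x => !s x) c := by
  obtain ⟨h1, h2, h3, h4, h5⟩ := h
  refine ⟨?_, ?_, ?_, ?_, ?_⟩
  · intro x y hx hy
    have hx' : s x = false := by simpa using hx
    have hy' : s y = true := by simpa using hy
    rw [G.adj_comm, h1 y x hy' hx']
    constructor
    · rintro ⟨e1, e2⟩
      exact ⟨e1.symm, by rw [← e1]; exact e2⟩
    · rintro ⟨e1, e2⟩
      exact ⟨e1.symm, by rw [← e1]; exact e2⟩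
  · obtain ⟨x, hx, hc⟩ := h4
    exact ⟨x, by simp [hx], hc⟩
  · obtain ⟨x, hx, hc⟩ := h5
    exact ⟨x, by simp [hx], hc⟩
  · obtain ⟨x, hx, hc⟩ := h2
    exact ⟨x, by simp [hx], hc⟩
  · obtain ⟨x, hx, hc⟩ := h3
    exact ⟨x, by simp [hx], hc⟩

theorem Lab.hasPartitionA {V : Type} {G : SimpleGraph V} {s : V → Bool} {c : V → Fin 3}
    (h : Lab G s c) : HasPartitionA G := by
  obtain ⟨h1, h2, h3, h4, h5⟩ := h
  refine ⟨{x | s x = true}, {x | s x = false}, {x | s x = true ∧ c x = 0},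
    {x | s x = true ∧ c x = 1}, {x | s x = false ∧ c x = 0}, {x | s x = false ∧ c x = 1},
    ?_, ?_, fun x hx => hx.1, fun x hx => hx.1, fun x hx => hx.1, fun x hx => hx.1,
    h2, h3, h4, h5, ?_, ?_, ?_⟩
  · ext x
    simp
  · rw [Set.disjoint_left]
    intro x hx hx'
    rw [Set.mem_ofPred_eq] at hx hx'
    rw [hx] at hx'
    exact absurd hx' (by decide)
  · rw [Set.disjoint_left]
    intro x hx hx'
    exact absurd (hx.2.symm.trans hx'.2) (by decide)
  · rw [Set.disjoint_left]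
    intro x hx hx'
    exact absurd (hx.2.symm.trans hx'.2) (by decide)
  · intro x hx y hy
    rw [Set.mem_ofPred_eq] at hx hy
    rw [h1 x y hx hy]
    simp only [Set.mem_ofPred_eq, hx, hy, true_and]
    generalize c x = a
    generalize c y = b
    revert a b
    decide

theorem HasPartitionA.exists_lab {V : Type} {G : SimpleGraph V} (h : HasPartitionA G) :
    ∃ s c, Lab G s c := by
  classical
  obtain ⟨V₁, V₂, A₁, B₁, A₂, B₂, hV, hd, hA1, hB1, hA2, hB2, ⟨a1, ha1⟩, ⟨b1, hb1⟩, ⟨a2, ha2⟩,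
    ⟨b2, hb2⟩, hdis1, hdis2, hadj⟩ := h
  rw [Set.disjoint_left] at hd hdis1 hdis2
  have hc0 : ∀ x, x ∈ A₁ ∨ x ∈ A₂ →
      (if x ∈ A₁ ∨ x ∈ A₂ then (0 : Fin 3) else if x ∈ B₁ ∨ x ∈ B₂ then 1 else 2) = 0 :=
    fun x hx => if_pos hx
  have hnB : ∀ x, x ∈ B₁ ∨ x ∈ B₂ → ¬ (x ∈ A₁ ∨ x ∈ A₂) := by
    rintro x (hx | hx) (hx' | hx')
    · exact hdis1 hx' hx
    · exact hd (hB1 hx) (hA2 hx')
    · exact hd (hA1 hx') (hB2 hx)
    · exact hdis2 hx' hx
  have hc1 : ∀ x, x ∈ B₁ ∨ x ∈ B₂ →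
      (if x ∈ A₁ ∨ x ∈ A₂ then (0 : Fin 3) else if x ∈ B₁ ∨ x ∈ B₂ then 1 else 2) = 1 := by
    intro x hx
    rw [if_neg (hnB x hx), if_pos hx]
  refine ⟨fun x => decide (x ∈ V₁),
    fun x => if x ∈ A₁ ∨ x ∈ A₂ then 0 else if x ∈ B₁ ∨ x ∈ B₂ then 1 else 2,
    ?_, ⟨a1, ?_, ?_⟩, ⟨b1, ?_, ?_⟩, ⟨a2, ?_, ?_⟩, ⟨b2, ?_, ?_⟩⟩
  · intro x y hx hy
    have hx1 : x ∈ V₁ := of_decide_eq_true hx
    have hy1 : y ∉ V₁ := of_decide_eq_false hy
    have hy2 : y ∈ V₂ := by
      have : y ∈ V₁ ∪ V₂ := by rw [hV]; trivial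
      rcases this with h | h
      · exact absurd h hy1
      · exact h
    have hx2 : x ∉ V₂ := fun h => hd hx1 h
    rw [hadj x hx1 y hy2]
    have g1 : x ∉ A₂ := fun h => hx2 (hA2 h)
    have g2 : x ∉ B₂ := fun h => hx2 (hB2 h)
    have g3 : y ∉ A₁ := fun h => hy1 (hA1 h)
    have g4 : y ∉ B₁ := fun h => hy1 (hB1 h)
    have g5 : x ∈ A₁ → x ∉ B₁ := fun h => hdis1 h
    have g6 : y ∈ A₂ → y ∉ B₂ := fun h => hdis2 h
    simp only [g1, g2, g3, g4, or_false, false_or]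
    by_cases k1 : x ∈ A₁ <;> by_cases k2 : x ∈ B₁ <;> by_cases k3 : y ∈ A₂ <;>
      by_cases k4 : y ∈ B₂ <;> simp_all
  · exact decide_eq_true (hA1 ha1)
  · exact hc0 _ (Or.inl ha1)
  · exact decide_eq_true (hB1 hb1)
  · exact hc1 _ (Or.inl hb1)
  · exact decide_eq_false (fun h => hd h (hA2 ha2))
  · exact hc0 _ (Or.inr ha2)
  · exact decide_eq_false (fun h => hd h (hB2 hb2))
  · exact hc1 _ (Or.inr hb2)

theorem partitionA_of_iso {V W : Type} {G : SimpleGraph V} {G' : SimpleGraph W} (φ : G ≃g G')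
    (h : HasPartitionA G') : HasPartitionA G := by
  obtain ⟨s, c, h1, ⟨x2, h2⟩, ⟨x3, h3⟩, ⟨x4, h4⟩, ⟨x5, h5⟩⟩ := h.exists_lab
  refine Lab.hasPartitionA (s := fun x => s (φ x)) (c := fun x => c (φ x)) ⟨?_,
    ⟨φ.symm x2, ?_⟩, ⟨φ.symm x3, ?_⟩, ⟨φ.symm x4, ?_⟩, ⟨φ.symm x5, ?_⟩⟩
  · intro x y hx hy
    rw [← φ.map_adj_iff]
    exact h1 _ _ hx hy
  all_goals
    simp only [φ.apply_symm_apply]
    assumption

theorem rook_joinCheck : joinCheck 9 rookA = true := by decide +kernel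

theorem rook_noA : ¬ HasPartitionA rook := joinCheck_noA rookA rook rook_adj rook_joinCheck

section
variable {V : Type} {H : SimpleGraph V}

/-- a square in row `0` or in column `0` -/
abbrev isN (a : Fin 8) : Prop := (pos a).1 = 0 ∨ (pos a).2 = 0

theorem one_side [Nonempty V] {s : Fin 8 ⊕ V → Bool} {c : Fin 8 ⊕ V → Fin 3}
    (hL : Lab (rookSub H) s c) (hall : ∀ h, s (.inr h) = true) : False := by
  obtain ⟨h0⟩ := (inferInstance : Nonempty V)
  obtain ⟨h1, h2, h3, h4, h5⟩ := hL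
  have hcl : ∀ k : Fin 3, k ≠ 2 → (∃ y, s y = false ∧ c y = k) → (∃ x, s x = true ∧ c x = k) →
      ∃ x, s (iota H h0 x) = true ∧ c (iota H h0 x) = k := by
    rintro k hk ⟨y, hy, hyk⟩ ⟨x, hx, hxk⟩
    rcases x with a | h
    · exact ⟨a.castSucc, by rw [iota_inl]; exact ⟨hx, hxk⟩⟩
    · refine ⟨Fin.last 8, ?_⟩
      rw [iota_last]
      refine ⟨hall h0, ?_⟩
      rcases y with b | h'
      · have g1 := (h1 (.inr h) (.inl b) hx hy).2 ⟨hxk.trans hyk.symm, by rw [hxk]; exact hk⟩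
        have g2 := (h1 (.inr h0) (.inl b) (hall h0) hy).1 g1
        exact g2.1.trans hyk
      · rw [hall] at hy
        exact absurd hy (by decide)
  have hcl' : ∀ k : Fin 3, (∃ y, s y = false ∧ c y = k) →
      ∃ x, s (iota H h0 x) = false ∧ c (iota H h0 x) = k := by
    rintro k ⟨y, hy, hyk⟩
    rcases y with b | h'
    · exact ⟨b.castSucc, by rw [iota_inl]; exact ⟨hy, hyk⟩⟩
    · rw [hall] at hy
      exact absurd hy (by decide)
  refine rook_noA (Lab.hasPartitionA (s := fun x => s (iota H h0 x))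
    (c := fun x => c (iota H h0 x)) ⟨?_, hcl 0 (by decide) h4 h2, hcl 1 (by decide) h5 h3,
    hcl' 0 h4, hcl' 1 h5⟩)
  intro x y hx hy
  rw [← (iota H h0).map_adj_iff]
  exact h1 _ _ hx hy

theorem all_out {s : Fin 8 ⊕ V → Bool} {c : Fin 8 ⊕ V → Fin 3}
    (hL : Lab (rookSub H) s c) (h1 : V) (hs1 : s (.inr h1) = true)
    (hN : ∀ a : Fin 8, isN a → s (.inl a) = false) : False := by
  obtain ⟨g1, g2, g3, g4, g5⟩ := hL
  have hcN : ∀ a : Fin 8, isN a → c (.inl a) = c (.inr h1) ∧ c (.inr h1) ≠ 2 := by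
    intro a ha
    have := (g1 (.inr h1) (.inl a) hs1 (hN a ha)).1 ha
    exact ⟨this.1.symm, this.2⟩
  have hM : ∀ a : Fin 8, s (.inl a) = false := by
    intro m
    by_cases hm : isN m
    · exact hN m hm
    · by_contra hsm
      have hsm' : s (.inl m) = true := by simpa using hsm
      have hex : ∀ m : Fin 8, ¬ isN m → ∃ a b : Fin 8, isN a ∧ isN b ∧
          (m ≠ a ∧ ((pos m).1 = (pos a).1 ∨ (pos m).2 = (pos a).2)) ∧
          ¬ (m ≠ b ∧ ((pos m).1 = (pos b).1 ∨ (pos m).2 = (pos b).2)) := by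
        decide +kernel
      obtain ⟨a, b, ha, hb, hma, hmb⟩ := hex m hm
      have k1 := (g1 (.inl m) (.inl a) hsm' (hN a ha)).1 hma
      apply hmb
      refine (g1 (.inl m) (.inl b) hsm' (hN b hb)).2 ⟨?_, k1.2⟩
      rw [k1.1, (hcN a ha).1, (hcN b hb).1]
  have hall : ∀ x, s x = true → c x = c (.inl 0) := by
    intro x hx
    rcases x with a | h
    · rw [hM a] at hx
      exact absurd hx (by decide)
    · exact ((g1 (.inr h) (.inl 0) hx (hM 0)).1 (by rw [adj_rl]; decide)).1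
  obtain ⟨x, hx, hx0⟩ := g2
  obtain ⟨y, hy, hy1⟩ := g3
  have := (hall x hx).trans (hall y hy).symm
  rw [hx0, hy1] at this
  exact absurd this (by decide)

/-- the first five squares -/
def sq (i : Fin 5) : Fin 8 := Fin.castLE (by omega) i

theorem mix : ∀ s0 s1 s2 s3 s4 : Bool, ∀ α β c4 : Fin 3,
    (∀ i j : Fin 5, (![s0, s1, s2, s3, s4] i = true) → (![s0, s1, s2, s3, s4] j = false) →
      ((sq i ≠ sq j ∧ ((pos (sq i)).1 = (pos (sq j)).1 ∨ (pos (sq i)).2 = (pos (sq j)).2)) ↔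
        (![if s0 then β else α, if s1 then β else α, if s2 then β else α, if s3 then β else α,
            c4] i =
          ![if s0 then β else α, if s1 then β else α, if s2 then β else α, if s3 then β else α,
            c4] j ∧
          ![if s0 then β else α, if s1 then β else α, if s2 then β else α, if s3 then β else α,
            c4] i ≠ 2))) → s0 = s1 ∧ s0 = s2 ∧ s0 = s3 := by
  decide +kernel

theorem rookSub_noA [Nonempty V] : ¬ HasPartitionA (rookSub H) := by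
  intro hP
  obtain ⟨s, c, hL⟩ := hP.exists_lab
  by_cases hall : ∀ h, s (.inr h) = true
  · exact one_side hL hall
  by_cases hall' : ∀ h, s (.inr h) = false
  · exact one_side hL.swap (fun h => by simp [hall' h])
  rw [not_forall] at hall hall'
  obtain ⟨h2, hs2⟩ := hall
  obtain ⟨h1, hs1⟩ := hall'
  have hs1' : s (.inr h1) = true := by simpa using hs1
  have hs2' : s (.inr h2) = false := by simpa using hs2
  obtain ⟨g1, -⟩ := id hL
  have hα : ∀ a : Fin 8, isN a → s (.inl a) = false → c (.inl a) = c (.inr h1) := by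
    intro a ha hsa
    exact ((g1 (.inr h1) (.inl a) hs1' hsa).1 ha).1.symm
  have hβ : ∀ a : Fin 8, isN a → s (.inl a) = true → c (.inl a) = c (.inr h2) := by
    intro a ha hsa
    exact ((g1 (.inl a) (.inr h2) hsa hs2').1 ha).1
  have hlab : ∀ a : Fin 8, isN a →
      (if s (.inl a) then c (.inr h2) else c (.inr h1)) = c (.inl a) := by
    intro a ha
    by_cases hsa : s (.inl a) = true
    · rw [if_pos hsa, hβ a ha hsa]
    · rw [if_neg hsa, hα a ha (by simpa using hsa)]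
  have hmix := mix (s (.inl 0)) (s (.inl 1)) (s (.inl 2)) (s (.inl 3)) (s (.inl 4))
    (c (.inr h1)) (c (.inr h2)) (c (.inl 4)) (by
      intro i j hi hj
      have es : ∀ i : Fin 5, ![s (.inl 0), s (.inl 1), s (.inl 2), s (.inl 3), s (.inl 4)] i =
          s (.inl (sq i)) := by
        intro i
        fin_cases i <;> rfl
      have ec : ∀ i : Fin 5, ![if s (.inl 0) then c (.inr h2) else c (.inr h1),
          if s (.inl 1) then c (.inr h2) else c (.inr h1),
          if s (.inl 2) then c (.inr h2) else c (.inr h1),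
          if s (.inl 3) then c (.inr h2) else c (.inr h1), c (.inl 4)] i = c (.inl (sq i)) := by
        intro i
        rw [hlab 0 (by decide), hlab 1 (by decide), hlab 2 (by decide), hlab 3 (by decide)]
        fin_cases i <;> rfl
      rw [es] at hi hj
      rw [ec, ec]
      exact g1 _ _ hi hj)
  obtain ⟨m1, m2, m3⟩ := hmix
  have hsN : ∀ a : Fin 8, isN a → s (.inl a) = s (.inl 0) := by
    intro a ha
    have : a = 0 ∨ a = 1 ∨ a = 2 ∨ a = 3 := by
      revert a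
      decide
    rcases this with rfl | rfl | rfl | rfl
    · rfl
    · exact m1.symm
    · exact m2.symm
    · exact m3.symm
  by_cases hs0 : s (.inl 0) = false
  · exact all_out hL h1 hs1' (fun a ha => (hsN a ha).trans hs0)
  · have hs0' : s (.inl 0) = true := by simpa using hs0
    exact all_out hL.swap h2 (by simp [hs2']) (fun a ha => by simp [(hsN a ha).trans hs0'])

end

end Pool.Agent.Y27.EP
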