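import Mathlib
import Pool.Agent.Y27.EP.Sub
import Pool.Agent.Y27.EP.Hole
import Pool.Agent.Y27.EP.Join

set_option autoImplicit false

namespace Pool.Agent.Y27.EP

open SimpleGraph Pool.Agent.H171R2.EP Pool.Agent.H171R2.Hole

theorem path_adj {n : ℕ} (i j : ℕ) (hi : i < n) (hj : j < n) :
    (pathGraph n).Adj ⟨i, hi⟩ ⟨j, hj⟩ ↔ (i + 1 = j ∨ j + 1 = i) := by
  rw [pathGraph_adj]

theorem evenPair_sub {V : Type} (H : SimpleGraph V) (u v : V) (h : IsEvenPair H u v) :
    IsEvenPair (rookSub H) (.inr u) (.inr v) := by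
  obtain ⟨hne, hev⟩ := h
  refine ⟨fun he => hne (Sum.inr.inj he), ?_⟩
  rintro n ⟨f, hf0, hfn⟩
  by_cases hall : ∀ i : Fin (n + 1), ∃ h, f i = .inr h
  · choose g hg using hall
    refine hev n ⟨⟨⟨g, ?_⟩, ?_⟩, ?_, ?_⟩
    · intro i j hij
      apply f.injective
      rw [hg, hg, hij]
    · intro i j
      change H.Adj (g i) (g j) ↔ _
      rw [← adj_rr H, ← hg, ← hg, f.map_adj_iff]
    · exact Sum.inr.inj ((hg 0).symm.trans hf0)
    · exact Sum.inr.inj ((hg (Fin.last n)).symm.trans hfn)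
  · rw [not_forall] at hall
    obtain ⟨w0, hw0⟩ := hall
    set P : ℕ → Prop := fun k => ∃ hk : k < n + 1, ∃ h, f ⟨k, hk⟩ = .inr h with hP
    have hP0 : P 0 := ⟨by omega, u, hf0⟩
    have hPn : P n := ⟨by omega, v, hfn⟩
    have hex : ∃ k, k + 1 < n + 1 ∧ P k ∧ ¬ P (k + 1) := by
      by_contra hcon
      rw [not_exists] at hcon
      have hstep : ∀ k, k < n + 1 → P k := by
        intro k
        induction k with
        | zero => intro _; exact hP0
        | succ k ih =>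
          intro hk
          by_contra hc
          exact hcon k ⟨hk, ih (by omega), hc⟩
      obtain ⟨_, h⟩ := hstep w0 w0.2
      exact hw0 h
    obtain ⟨k, hk, ⟨hk1, h, hfk⟩, hPk1⟩ := hex
    have hcl : ∀ j : ℕ, P j → (k + 1 + 1 = j ∨ j + 1 = k + 1) := by
      rintro j ⟨hj, h', hfj⟩
      rw [← path_adj (k + 1) j hk hj, ← f.map_adj_iff, hfj]
      have h1 : (rookSub H).Adj (f ⟨k + 1, hk⟩) (f ⟨k, hk1⟩) := by
        rw [f.map_adj_iff, path_adj]
        omega
      rcases hfk1 : f ⟨k + 1, hk⟩ with a | h''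
      · rw [hfk1, hfk, adj_lr] at h1
        rw [adj_lr]
        exact h1
      · exact absurd ⟨hk, h'', hfk1⟩ hPk1
    have c0 := hcl 0 hP0
    have cn := hcl n hPn
    have : n = 2 := by omega
    rw [this]
    decide

theorem epf_sub_iff {V : Type} [Nonempty V] (H : SimpleGraph V) :
    EvenPairFree (rookSub H) ↔ EvenPairFree H := by
  refine ⟨fun h u v huv => h _ _ (evenPair_sub H u v huv), rookSub_epf H⟩

theorem berge_sub_iff {V : Type} [Nonempty V] (H : SimpleGraph V) :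
    IsBerge (rookSub H) ↔ IsBerge H :=
  ⟨berge_of_emb (embH H), rookSub_berge H⟩

theorem epf_compl_sub_iff {V : Type} [Nonempty V] (H : SimpleGraph V) :
    EvenPairFree (rookSub H)ᶜ ↔ EvenPairFree Hᶜ := by
  rw [← epf_sub_iff Hᶜ]
  exact ⟨epf_of_iso (complIso H).symm, epf_of_iso (complIso H)⟩

theorem not_line_compl {V : Type} (H : SimpleGraph V) (h h' : V) (hne : h ≠ h') :
    ¬ IsLineGraphOfBipartite (rookSub H)ᶜ := fun hl =>
  rookSub_not_line Hᶜ h h' hne (line_of_iso (complIso H) hl)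

theorem noA_compl {V : Type} [Nonempty V] (H : SimpleGraph V) :
    ¬ HasPartitionA (rookSub H)ᶜ := fun hl =>
  rookSub_noA (partitionA_of_iso (complIso H) hl)

/-- The complement of an isomorphism. -/
def isoCompl {V W : Type} {G : SimpleGraph V} {G' : SimpleGraph W} (φ : G ≃g G') : Gᶜ ≃g G'ᶜ where
  toEquiv := φ.toEquiv
  map_rel_iff' := by
    intro a b
    change G'ᶜ.Adj (φ a) (φ b) ↔ _
    rw [compl_adj, compl_adj, φ.map_adj_iff, Ne, φ.injective.eq_iff]

/-- The complete graph is Berge. -/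
theorem top_berge (V : Type) : IsBerge (⊤ : SimpleGraph V) := by
  intro n hn hodd
  have hn5 : 5 ≤ n := by
    rcases hodd with ⟨k, rfl⟩
    omega
  refine ⟨?_, ?_⟩
  · rintro ⟨g⟩
    have h1 : (cycleGraph n).Adj ⟨0, by omega⟩ ⟨2, by omega⟩ := by
      rw [← g.map_adj_iff, top_adj]
      intro h
      have := g.injective h
      rw [Fin.mk.injEq] at this
      omega
    rw [cyc_adj (by omega)] at h1
    omega
  · rintro ⟨g⟩
    have h1 : (cycleGraph n)ᶜ.Adj ⟨0, by omega⟩ ⟨1, by omega⟩ := by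
      rw [← g.map_adj_iff, top_adj]
      intro h
      have := g.injective h
      rw [Fin.mk.injEq] at this
      omega
    rw [compl_adj, cyc_adj (by omega)] at h1
    exact h1.2 (by omega)

theorem top_epf (V : Type) : EvenPairFree (⊤ : SimpleGraph V) := by
  rintro u v ⟨huv, hev⟩
  have := hev 1 ⟨⟨⟨fun i => if i = 0 then u else v, ?_⟩, ?_⟩, ?_, ?_⟩
  · exact absurd this (by decide)
  · intro i j hij
    fin_cases i <;> fin_cases j <;> simp_all
  · intro i j
    rw [pathGraph_adj]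
    change (⊤ : SimpleGraph V).Adj (if i = 0 then u else v) (if j = 0 then u else v) ↔ _
    fin_cases i <;> fin_cases j <;> simp [huv, huv.symm]
  · rfl
  · rfl

/-- transport of a graph on `Fin 8 ⊕ Fin m` to `Fin (8 + m)` -/
theorem transport {m n : ℕ} (hmn : 8 + m = n) (H : SimpleGraph (Fin m)) :
    ∃ G : SimpleGraph (Fin n), Nonempty (G ≃g rookSub H) := by
  subst hmn
  refine ⟨(rookSub H).comap finSumFinEquiv.symm, ⟨⟨finSumFinEquiv.symm, ?_⟩⟩⟩
  intro a b
  exact Iff.rfl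

/-- All the properties of the counterexamples. -/
def Cex {V : Type} (G : SimpleGraph V) : Prop :=
  IsBerge G ∧ EvenPairFree G ∧ ¬ IsLineGraphOfBipartite G ∧ ¬ IsLineGraphOfBipartite Gᶜ ∧
    ¬ HasPartitionA G ∧ ¬ HasPartitionA Gᶜ

theorem cex_sub {V : Type} [Nontrivial V] (H : SimpleGraph V) (hB : IsBerge H)
    (hE : EvenPairFree H) : Cex (rookSub H) := by
  obtain ⟨h, h', hne⟩ := exists_pair_ne V
  exact ⟨rookSub_berge H hB, rookSub_epf H hE, rookSub_not_line H h h' hne,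
    not_line_compl H h h' hne, rookSub_noA, noA_compl H⟩

theorem cex_iso {V W : Type} {G : SimpleGraph V} {G' : SimpleGraph W} (φ : G ≃g G')
    (h : Cex G') : Cex G := by
  obtain ⟨h1, h2, h3, h4, h5, h6⟩ := h
  exact ⟨berge_of_emb φ.toEmbedding h1, epf_of_iso φ.symm h2, fun h => h3 (line_of_iso φ.symm h),
    fun h => h4 (line_of_iso (isoCompl φ).symm h), fun h => h5 (partitionA_of_iso φ.symm h),
    fun h => h6 (partitionA_of_iso (isoCompl φ).symm h)⟩

theorem exists_cex (n : ℕ) (hn : 10 ≤ n) : ∃ G : SimpleGraph (Fin n), Cex G := by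
  obtain ⟨m, rfl⟩ : ∃ m, n = 8 + m := ⟨n - 8, by omega⟩
  obtain ⟨G, ⟨φ⟩⟩ := transport rfl (⊤ : SimpleGraph (Fin m))
  have : Nontrivial (Fin m) := Fin.nontrivial_iff_two_le.2 (by omega)
  exact ⟨G, cex_iso φ (cex_sub _ (top_berge _) (top_epf _))⟩

/-- complement masks -/
def corookA (v : ℕ) : ℕ := ((2^9-1) ^^^ rookA v) ^^^ (1 <<< v)

theorem corook_adj (u v : Fin 9) : rookᶜ.Adj u v ↔ (corookA u).testBit v = true := by
  have h : ∀ u v : Fin 9, (u ≠ v ∧ ¬ (rookA u).testBit v = true) ↔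
      (corookA u).testBit v = true := by
    decide +kernel
  rw [compl_adj, rook_adj]
  exact h u v

theorem coholeRook : holeCheck 9 corookA (fun d => d % 2 == 0) = true := by decide +kernel

theorem rook_berge : IsBerge rook := by
  intro n hn hodd
  refine ⟨no_odd_hole rookA rook rook_adj holeRook n hn hodd, ?_⟩
  rintro ⟨g⟩
  exact no_odd_hole corookA rookᶜ corook_adj coholeRook n hn hodd ⟨complEmb _ _ g⟩

theorem corook_epf : EvenPairFree rookᶜ := by
  refine evenPairFree_of corookA rookᶜ corook_adj ?_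
  decide +kernel

theorem exists_self (k : ℕ) (hk : 1 ≤ k) : ∃ G : SimpleGraph (Fin (8 * k + 1)),
    IsBerge G ∧ EvenPairFree G ∧ EvenPairFree Gᶜ := by
  induction k with
  | zero => omega
  | succ k ih =>
    rcases Nat.eq_zero_or_pos k with rfl | hk0
    · exact ⟨rook, rook_berge, rook_epf, corook_epf⟩
    · obtain ⟨H, h1, h2, h3⟩ := ih hk0
      obtain ⟨G, ⟨φ⟩⟩ := transport (show 8 + (8 * k + 1) = 8 * (k + 1) + 1 by omega) H
      have : Nonempty (Fin (8 * k + 1)) := ⟨0⟩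
      exact ⟨G, berge_of_emb φ.toEmbedding (rookSub_berge H h1), epf_of_iso φ.symm
        (rookSub_epf H h2), epf_of_iso (isoCompl φ).symm ((epf_compl_sub_iff H).2 h3)⟩

theorem exists_cex_self (k : ℕ) (hk : 2 ≤ k) : ∃ G : SimpleGraph (Fin (8 * k + 1)),
    Cex G ∧ EvenPairFree Gᶜ := by
  obtain ⟨k, rfl⟩ : ∃ j, k = j + 1 := ⟨k - 1, by omega⟩
  obtain ⟨H, h1, h2, h3⟩ := exists_self k (by omega)
  obtain ⟨G, ⟨φ⟩⟩ := transport (show 8 + (8 * k + 1) = 8 * (k + 1) + 1 by omega) H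
  have : Nontrivial (Fin (8 * k + 1)) := Fin.nontrivial_iff_two_le.2 (by omega)
  exact ⟨G, cex_iso φ (cex_sub H h1 h2), epf_of_iso (isoCompl φ).symm ((epf_compl_sub_iff H).2 h3)⟩

end Pool.Agent.Y27.EP
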