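import Mathlib
import Pool.Agent.Y27.EP.Fin

set_option autoImplicit false

namespace Pool.Agent.Y27.EP

open SimpleGraph Pool.Agent.H171R2.EP Pool.Agent.H171R2.Hole

/-- The double split graph of a `0`-`1`-matrix `M` with `m` rows and `n` columns. Its vertices are
`(i, s)` for a row `i` and `(j, t)` for a column `j`, where `s` and `t` are bits. The vertices
`(i, 0)`, `(i, 1)` of one row are adjacent, and there are no other edges between row vertices; the
column vertices are pairwise adjacent except that `(j, 0)` and `(j, 1)` are not; a row vertex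
`(i, s)` and a column vertex `(j, t)` are adjacent if and only if `s + t = M i j` modulo `2`. -/
def dsplit {m n : ℕ} (M : Fin m → Fin n → Bool) :
    SimpleGraph ((Fin m × Bool) ⊕ (Fin n × Bool)) where
  Adj
    | .inl x, .inl y => x.1 = y.1 ∧ x.2 ≠ y.2
    | .inl x, .inr y => (x.2 ^^ y.2) = M x.1 y.1
    | .inr y, .inl x => (x.2 ^^ y.2) = M x.1 y.1
    | .inr x, .inr y => x.1 ≠ y.1
  symm := by
    constructor
    rintro (a | a) (b | b) hab
    · exact ⟨hab.1.symm, hab.2.symm⟩
    · exact hab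
    · exact hab
    · exact fun h => hab h.symm
  loopless := by
    constructor
    rintro (a | a) hab
    · exact hab.2 rfl
    · exact hab rfl

section
variable {m n : ℕ} (M : Fin m → Fin n → Bool)

theorem ds_ll (x y : Fin m × Bool) : (dsplit M).Adj (.inl x) (.inl y) ↔
    (x.1 = y.1 ∧ x.2 ≠ y.2) := Iff.rfl

theorem ds_lr (x : Fin m × Bool) (y : Fin n × Bool) : (dsplit M).Adj (.inl x) (.inr y) ↔
    (x.2 ^^ y.2) = M x.1 y.1 := Iff.rfl

theorem ds_rl (x : Fin m × Bool) (y : Fin n × Bool) : (dsplit M).Adj (.inr y) (.inl x) ↔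
    (x.2 ^^ y.2) = M x.1 y.1 := Iff.rfl

theorem ds_rr (x y : Fin n × Bool) : (dsplit M).Adj (.inr x) (.inr y) ↔ x.1 ≠ y.1 := Iff.rfl

end

/-! ## No odd hole -/

theorem B3 : ∀ a b c : Bool, a ≠ b → a ≠ c → b ≠ c → False := by decide

theorem B2 : ∀ a b c : Bool, a ≠ b → b ≠ c → a = c := by decide

theorem B4 : ∀ a b c m : Bool, a ≠ b → (c ^^ a) = m → (c ^^ b) = m → False := by decide

theorem B5 : ∀ x y z m : Bool, x ≠ y → ¬ (x ^^ z) = m → ¬ (y ^^ z) = m → False := by decide

theorem ds_no_odd_hole {m n : ℕ} (M : Fin m → Fin n → Bool) (k : ℕ) (hk : 4 ≤ k) (hodd : Odd k) :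
    ¬ Nonempty (cycleGraph k ↪g dsplit M) := by
  rintro ⟨g0⟩
  have hk5 : 5 ≤ k := by
    rcases hodd with ⟨l, rfl⟩
    omega
  have hk7 : k = 5 ∨ 7 ≤ k := by
    rcases hodd with ⟨l, rfl⟩
    omega
  have hk0 : NeZero k := ⟨by omega⟩
  -- not all of three consecutive vertices are row vertices
  have key1 : ∀ (g : cycleGraph k ↪g dsplit M) (i j l : ℕ) (hi : i < k) (hj : j < k) (hl : l < k),
      i ≠ l → (cycleGraph k).Adj ⟨i, hi⟩ ⟨j, hj⟩ → (cycleGraph k).Adj ⟨j, hj⟩ ⟨l, hl⟩ →
      (∃ x, g ⟨i, hi⟩ = .inr x) ∨ (∃ x, g ⟨j, hj⟩ = .inr x) ∨ (∃ x, g ⟨l, hl⟩ = .inr x) := by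
    intro g i j l hi hj hl hil h1 h2
    rcases h3 : g ⟨i, hi⟩ with x | x
    · rcases h4 : g ⟨j, hj⟩ with y | y
      · rcases h5 : g ⟨l, hl⟩ with z | z
        · exfalso
          rw [← g.map_adj_iff, h3, h4, ds_ll] at h1
          rw [← g.map_adj_iff, h4, h5, ds_ll] at h2
          have hxz : x = z := by
            apply Prod.ext
            · exact h1.1.trans h2.1
            · exact B2 _ _ _ h1.2 h2.2
          have : g ⟨i, hi⟩ = g ⟨l, hl⟩ := by rw [h3, h5, hxz]
          have := g.injective this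
          rw [Fin.mk.injEq] at this
          exact hil this
        · exact Or.inr (Or.inr ⟨z, rfl⟩)
      · exact Or.inr (Or.inl ⟨y, rfl⟩)
    · exact Or.inl ⟨x, rfl⟩
  -- a column vertex
  obtain ⟨p, hp⟩ : ∃ p : Fin k, ∃ x, g0 p = .inr x := by
    rcases key1 g0 0 1 2 (by omega) (by omega) (by omega) (by omega)
      ((cyc_adj (by omega) _ _ _ _).2 (by omega)) ((cyc_adj (by omega) _ _ _ _).2 (by omega)) with
      h | h | h
    · exact ⟨_, h⟩
    · exact ⟨_, h⟩
    · exact ⟨_, h⟩
  -- rotate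
  obtain ⟨g, hg⟩ : ∃ g : cycleGraph k ↪g dsplit M, ∃ x, g ⟨0, by omega⟩ = .inr x := by
    refine ⟨⟨⟨fun i => g0 (p + i), ?_⟩, ?_⟩, ?_⟩
    · intro i j hij
      exact add_left_cancel (g0.injective hij)
    · intro i j
      change (dsplit M).Adj (g0 (p + i)) (g0 (p + j)) ↔ _
      rw [g0.map_adj_iff, cycleGraph_adj', cycleGraph_adj', add_sub_add_left_eq_sub,
        add_sub_add_left_eq_sub]
    · obtain ⟨x, hx⟩ := hp
      refine ⟨x, ?_⟩
      change g0 (p + ⟨0, _⟩) = _
      have : (⟨0, by omega⟩ : Fin k) = 0 := rfl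
      rw [this, add_zero, hx]
  set E : ℕ → ℕ → Prop := fun i j =>
    (i + 1 = j ∨ j + 1 = i) ∨ (i = 0 ∧ j + 1 = k) ∨ (j = 0 ∧ i + 1 = k) with hE
  have hcyc : ∀ (i j : ℕ) (hi : i < k) (hj : j < k),
      (dsplit M).Adj (g ⟨i, hi⟩) (g ⟨j, hj⟩) ↔ E i j := by
    intro i j hi hj
    rw [g.map_adj_iff, cyc_adj (by omega)]
  set C : ℕ → Prop := fun i => ∃ hi : i < k, ∃ x, g ⟨i, hi⟩ = .inr x with hC
  have hC0 : C 0 := ⟨by omega, hg⟩
  have K1 : ∀ i j l : ℕ, i < k → j < k → l < k → i ≠ l → E i j → E j l → (C i ∨ C j ∨ C l) := by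
    intro i j l hi hj hl hil h1 h2
    have e1 := (cyc_adj (n := k) (by omega) i j hi hj).2 h1
    have e2 := (cyc_adj (n := k) (by omega) j l hj hl).2 h2
    rcases key1 g i j l hi hj hl hil e1 e2 with h | h | h
    · exact Or.inl ⟨hi, h⟩
    · exact Or.inr (Or.inl ⟨hj, h⟩)
    · exact Or.inr (Or.inr ⟨hl, h⟩)
  -- a column vertex has at most one non-neighbour among the column vertices
  have K3 : ∀ i j l : ℕ, C i → C j → C l → i ≠ j → i ≠ l → j ≠ l → ¬ E i j → ¬ E i l → False := by
    rintro i j l ⟨hi, x, hx⟩ ⟨hj, y, hy⟩ ⟨hl, z, hz⟩ hij hil hjl h1 h2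
    rw [← hcyc i j hi hj, hx, hy, ds_rr, not_not] at h1
    rw [← hcyc i l hi hl, hx, hz, ds_rr, not_not] at h2
    have n1 : x ≠ y := by
      rintro rfl
      have := g.injective (hx.trans hy.symm)
      rw [Fin.mk.injEq] at this
      exact hij this
    have n2 : x ≠ z := by
      rintro rfl
      have := g.injective (hx.trans hz.symm)
      rw [Fin.mk.injEq] at this
      exact hil this
    have n3 : y ≠ z := by
      rintro rfl
      have := g.injective (hy.trans hz.symm)
      rw [Fin.mk.injEq] at this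
      exact hjl this
    have b1 : x.2 ≠ y.2 := fun h => n1 (Prod.ext h1 h)
    have b2 : x.2 ≠ z.2 := fun h => n2 (Prod.ext h2 h)
    have b3 : y.2 ≠ z.2 := fun h => n3 (Prod.ext (h1.symm.trans h2) h)
    exact B3 _ _ _ b1 b2 b3
  -- two partners and a row vertex
  have K4 : ∀ i j l : ℕ, C i → C j → l < k → ¬ C l → i ≠ j → ¬ E i j → E l i → E l j → False := by
    rintro i j l ⟨hi, x, hx⟩ ⟨hj, y, hy⟩ hl hCl hij h1 h2 h3
    rw [← hcyc i j hi hj, hx, hy, ds_rr, not_not] at h1
    have n1 : x ≠ y := by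
      rintro rfl
      have := g.injective (hx.trans hy.symm)
      rw [Fin.mk.injEq] at this
      exact hij this
    have b1 : x.2 ≠ y.2 := fun h => n1 (Prod.ext h1 h)
    rcases hz : g ⟨l, hl⟩ with z | z
    · rw [← hcyc l i hl hi, hz, hx, ds_lr] at h2
      rw [← hcyc l j hl hj, hz, hy, ds_lr, ← h1] at h3
      exact B4 _ _ _ _ b1 h2 h3
    · exact hCl ⟨hl, z, hz⟩
  -- two adjacent row vertices and a column vertex
  have K5 : ∀ i j l : ℕ, i < k → j < k → ¬ C i → ¬ C j → C l → E i j → ¬ E l i → ¬ E l j →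
      False := by
    rintro i j l hi hj hCi hCj ⟨hl, z, hz⟩ h1 h2 h3
    rcases hx : g ⟨i, hi⟩ with x | x
    · rcases hy : g ⟨j, hj⟩ with y | y
      · rw [← hcyc i j hi hj, hx, hy, ds_ll] at h1
        rw [← hcyc l i hl hi, hz, hx, ds_rl] at h2
        rw [← hcyc l j hl hj, hz, hy, ds_rl, ← h1.1] at h3
        exact B5 _ _ _ _ h1.2 h2 h3
      · exact hCj ⟨hj, y, hy⟩
    · exact hCi ⟨hi, x, hx⟩
  rcases hk7 with hk5' | hk7
  · -- pentagon
    have e : ∀ i j : ℕ, (E i j ↔ ((i + 1 = j ∨ j + 1 = i) ∨ (i = 0 ∧ j + 1 = k) ∨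
        (j = 0 ∧ i + 1 = k))) := fun i j => Iff.rfl
    by_cases h2 : C 2
    · by_cases h3 : C 3
      · exact K3 0 2 3 hC0 h2 h3 (by omega) (by omega) (by omega) (by rw [e]; omega)
          (by rw [e]; omega)
      · have h1 : C 1 := by
          by_contra h1
          exact K4 0 2 1 hC0 h2 (by omega) h1 (by omega) (by rw [e]; omega) (by rw [e]; omega)
            (by rw [e]; omega)
        have h4 : ¬ C 4 := fun h4 => K3 4 1 2 h4 h1 h2 (by omega) (by omega) (by omega)
          (by rw [e]; omega) (by rw [e]; omega)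
        exact K5 3 4 1 (by omega) (by omega) h3 h4 h1 (by rw [e]; omega) (by rw [e]; omega)
          (by rw [e]; omega)
    · by_cases h3 : C 3
      · have h4 : C 4 := by
          by_contra h4
          exact K4 0 3 4 hC0 h3 (by omega) h4 (by omega) (by rw [e]; omega) (by rw [e]; omega)
            (by rw [e]; omega)
        have h1 : ¬ C 1 := fun h1 => K3 1 3 4 h1 h3 h4 (by omega) (by omega) (by omega)
          (by rw [e]; omega) (by rw [e]; omega)
        exact K5 1 2 4 (by omega) (by omega) h1 h2 h4 (by rw [e]; omega) (by rw [e]; omega)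
          (by rw [e]; omega)
      · exact K5 2 3 0 (by omega) (by omega) h2 h3 hC0 (by rw [e]; omega) (by rw [e]; omega)
          (by rw [e]; omega)
  · have e : ∀ i j : ℕ, (E i j ↔ ((i + 1 = j ∨ j + 1 = i) ∨ (i = 0 ∧ j + 1 = k) ∨
        (j = 0 ∧ i + 1 = k))) := fun i j => Iff.rfl
    have h234 : C 2 ∨ C 3 ∨ C 4 := K1 2 3 4 (by omega) (by omega) (by omega) (by omega)
      (by rw [e]; omega) (by rw [e]; omega)
    rcases h234 with h2 | h3 | h4
    · have h345 : C 3 ∨ C 4 ∨ C 5 := K1 3 4 5 (by omega) (by omega) (by omega) (by omega)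
        (by rw [e]; omega) (by rw [e]; omega)
      rcases h345 with h | h | h
      · exact K3 0 2 3 hC0 h2 h (by omega) (by omega) (by omega) (by rw [e]; omega)
          (by rw [e]; omega)
      · exact K3 0 2 4 hC0 h2 h (by omega) (by omega) (by omega) (by rw [e]; omega)
          (by rw [e]; omega)
      · exact K3 0 2 5 hC0 h2 h (by omega) (by omega) (by omega) (by rw [e]; omega)
          (by rw [e]; omega)
    · have h456 : C 4 ∨ C 5 ∨ C 6 := K1 4 5 6 (by omega) (by omega) (by omega) (by omega)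
        (by rw [e]; omega) (by rw [e]; omega)
      rcases h456 with h | h | h
      · exact K3 0 3 4 hC0 h3 h (by omega) (by omega) (by omega) (by rw [e]; omega)
          (by rw [e]; omega)
      · exact K3 0 3 5 hC0 h3 h (by omega) (by omega) (by omega) (by rw [e]; omega)
          (by rw [e]; omega)
      · exact K3 3 0 6 h3 hC0 h (by omega) (by omega) (by omega) (by rw [e]; omega)
          (by rw [e]; omega)
    · have h123 : C 1 ∨ C 2 ∨ C 3 := K1 1 2 3 (by omega) (by omega) (by omega) (by omega)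
        (by rw [e]; omega) (by rw [e]; omega)
      rcases h123 with h | h | h
      · exact K3 4 0 1 h4 hC0 h (by omega) (by omega) (by omega) (by rw [e]; omega)
          (by rw [e]; omega)
      · exact K3 0 4 2 hC0 h4 h (by omega) (by omega) (by omega) (by rw [e]; omega)
          (by rw [e]; omega)
      · exact K3 0 4 3 hC0 h4 h (by omega) (by omega) (by omega) (by rw [e]; omega)
          (by rw [e]; omega)

end Pool.Agent.Y27.EP
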