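import Mathlib
import Pool.Agent.Y27.EP.DS

set_option autoImplicit false

namespace Pool.Agent.Y27.EP

open SimpleGraph Pool.Agent.H171R2.EP Pool.Agent.H171R2.Hole

/-! ## Complement -/

/-- the matrix of the complement -/
def coM {m n : ℕ} (M : Fin m → Fin n → Bool) : Fin n → Fin m → Bool := fun j i => !(M i j)

theorem xor_not : ∀ a b c : Bool, (a ^^ b) = !c ↔ ¬ (b ^^ a) = c := by decide

/-- The complement of a double split graph is the double split graph of `coM M`. -/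
def dsCompl {m n : ℕ} (M : Fin m → Fin n → Bool) : dsplit (coM M) ≃g (dsplit M)ᶜ where
  toEquiv := Equiv.sumComm _ _
  map_rel_iff' := by
    rintro (x | x) (y | y)
    · change (dsplit M)ᶜ.Adj (.inr x) (.inr y) ↔ _
      rw [compl_adj, ds_rr, ds_ll, not_not, Ne, Sum.inr.injEq]
      constructor
      · rintro ⟨h1, h2⟩
        exact ⟨h2, fun h3 => h1 (Prod.ext h2 h3)⟩
      · rintro ⟨h1, h2⟩
        exact ⟨fun h3 => h2 (by rw [h3]), h1⟩
    · change (dsplit M)ᶜ.Adj (.inr x) (.inl y) ↔ _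
      rw [compl_adj, ds_rl, ds_lr, coM, xor_not]
      simp
    · change (dsplit M)ᶜ.Adj (.inl x) (.inr y) ↔ _
      rw [compl_adj, ds_lr, ds_rl, coM, xor_not]
      simp
    · change (dsplit M)ᶜ.Adj (.inl x) (.inl y) ↔ _
      rw [compl_adj, ds_ll, ds_rr, Ne, Sum.inl.injEq]
      constructor
      · rintro ⟨h1, h2⟩ h3
        exact h2 ⟨h3, fun h4 => h1 (Prod.ext h3 h4)⟩
      · intro h1
        exact ⟨fun h2 => h1 (by rw [h2]), fun h2 => h1 h2.1⟩

theorem ds_berge {m n : ℕ} (M : Fin m → Fin n → Bool) : IsBerge (dsplit M) := by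
  intro k hk hodd
  refine ⟨ds_no_odd_hole M k hk hodd, ?_⟩
  rintro ⟨g⟩
  exact ds_no_odd_hole (coM M) k hk hodd ⟨(complEmb _ _ g).trans (dsCompl M).symm.toEmbedding⟩

/-! ## Even pairs -/

theorem epf_of_path3 {V : Type} (G : SimpleGraph V)
    (h : ∀ u v, u ≠ v → ¬ G.Adj u v → ∃ p q, G.Adj u p ∧ G.Adj p q ∧ G.Adj q v ∧ ¬ G.Adj u q ∧
      ¬ G.Adj p v) : EvenPairFree G := by
  rintro u v ⟨huv, hev⟩
  by_cases hadj : G.Adj u v
  · have := hev 1 ⟨⟨⟨fun i => if i = 0 then u else v, ?_⟩, ?_⟩, ?_, ?_⟩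
    · exact absurd this (by decide)
    · intro i j hij
      fin_cases i <;> fin_cases j <;> simp_all
    · intro i j
      rw [pathGraph_adj]
      change G.Adj (if i = 0 then u else v) (if j = 0 then u else v) ↔ _
      fin_cases i <;> fin_cases j <;> simp [hadj, hadj.symm]
    · rfl
    · rfl
  · obtain ⟨p, q, hup, hpq, hqv, huq, hpv⟩ := h u v huv hadj
    have hvp : ¬ G.Adj v p := fun h => hpv h.symm
    have hqu : ¬ G.Adj q u := fun h => huq h.symm
    have hvu : ¬ G.Adj v u := fun h => hadj h.symm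
    have := hev 3 ⟨⟨⟨![u, p, q, v], ?_⟩, ?_⟩, ?_, ?_⟩
    · exact absurd this (by decide)
    · intro i j hij
      have hup' := hup.ne
      have hpq' := hpq.ne
      have hqv' := hqv.ne
      have huq3 : u ≠ q := by
        rintro rfl
        exact hadj hqv
      have hpv3 : p ≠ v := by
        rintro rfl
        exact hadj hup
      fin_cases i <;> fin_cases j <;> simp_all
    · intro i j
      rw [pathGraph_adj]
      change G.Adj (![u, p, q, v] i) (![u, p, q, v] j) ↔ _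
      fin_cases i <;> fin_cases j <;>
        simp [hup, hup.symm, hpq, hpq.symm, hqv, hqv.symm, hadj, hvu, hpv, hvp, huq, hqu]
    · rfl
    · rfl

/-- Any two different rows agree in some column and differ in some column: no two rows are equal or
complementary. -/
def RowsOK {m n : ℕ} (M : Fin m → Fin n → Bool) : Prop :=
  ∀ i i' : Fin m, i ≠ i' → (∃ j, M i j = M i' j) ∧ (∃ j, M i j ≠ M i' j)

theorem bool_a : ∀ s s' x y : Bool, s = s' → x ≠ y → (s' ^^ (!s ^^ x)) = y := by decide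
theorem bool_b : ∀ s s' x y : Bool, s ≠ s' → x = y → (s' ^^ (!s ^^ x)) = y := by decide
theorem bool_c : ∀ s x : Bool, (!s ^^ (!s ^^ x)) = x := by decide
theorem bool_d : ∀ s x : Bool, ¬ (s ^^ (!s ^^ x)) = x := by decide
theorem bool_e : ∀ t x : Bool, ((x ^^ t) ^^ t) = x := by decide
theorem bool_f : ∀ t x : Bool, ¬ ((!(x ^^ t)) ^^ t) = x := by decide
theorem bool_g : ∀ t t' x : Bool, t ≠ t' → ((!(x ^^ t)) ^^ t') = x := by decide
theorem bool_h : ∀ t t' x : Bool, t ≠ t' → ¬ ((x ^^ t) ^^ t') = x := by decide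
theorem bool_i : ∀ s t x : Bool, ¬ (s ^^ t) = x → (s ^^ !t) = x := by decide
theorem bool_j : ∀ s x : Bool, ¬ (s ^^ (!(s ^^ x))) = x := by decide

theorem ds_epf {m n : ℕ} (M : Fin m → Fin n → Bool) (hm : 1 ≤ m) (hn : 2 ≤ n) (hR : RowsOK M) :
    EvenPairFree (dsplit M) := by
  -- a column other than a given one
  have hcol : ∀ j : Fin n, ∃ l : Fin n, l ≠ j := by
    intro j
    by_cases hj : (j : ℕ) = 0
    · exact ⟨⟨1, by omega⟩, fun h => by rw [Fin.ext_iff] at h; simp only at h; omega⟩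
    · exact ⟨⟨0, by omega⟩, fun h => by rw [Fin.ext_iff] at h; simp only at h; omega⟩
  -- a row vertex and a column vertex
  have hrc : ∀ (x : Fin m × Bool) (y : Fin n × Bool), ¬ (x.2 ^^ y.2) = M x.1 y.1 →
      ∃ p q, (dsplit M).Adj (.inl x) p ∧ (dsplit M).Adj p q ∧ (dsplit M).Adj q (.inr y) ∧
        ¬ (dsplit M).Adj (.inl x) q ∧ ¬ (dsplit M).Adj p (.inr y) := by
    intro x y hxy
    obtain ⟨l, hl⟩ := hcol y.1
    refine ⟨.inr (y.1, !y.2), .inr (l, !(x.2 ^^ M x.1 l)), ?_, ?_, ?_, ?_, ?_⟩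
    · rw [ds_lr]
      exact bool_i _ _ _ hxy
    · rw [ds_rr]
      exact hl.symm
    · rw [ds_rr]
      exact hl
    · rw [ds_lr]
      exact bool_j _ _
    · rw [ds_rr]
      exact fun h => h rfl
  apply epf_of_path3
  rintro (x | x) (y | y) hne hadj
  · -- two row vertices
    rw [ds_ll] at hadj
    have h1 : x.1 ≠ y.1 := by
      intro h1
      apply hadj
      refine ⟨h1, fun h2 => hne ?_⟩
      rw [Prod.ext h1 h2]
    obtain ⟨⟨j, hj⟩, ⟨j', hj'⟩⟩ := hR x.1 y.1 h1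
    have hex : ∃ j, (y.2 ^^ (!x.2 ^^ M x.1 j)) = M y.1 j := by
      by_cases h2 : x.2 = y.2
      · exact ⟨j', bool_a _ _ _ _ h2 hj'⟩
      · exact ⟨j, bool_b _ _ _ _ h2 hj⟩
    obtain ⟨j, hj⟩ := hex
    refine ⟨.inl (x.1, !x.2), .inr (j, !x.2 ^^ M x.1 j), ?_, ?_, ?_, ?_, ?_⟩
    · rw [ds_ll]
      exact ⟨rfl, by simp⟩
    · rw [ds_lr]
      exact bool_c _ _
    · rw [ds_rl]
      exact hj
    · rw [ds_lr]
      exact bool_d _ _
    · rw [ds_ll]
      exact fun h => h1 h.1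
  · rw [ds_lr] at hadj
    exact hrc x y hadj
  · rw [ds_rl] at hadj
    obtain ⟨p, q, h1, h2, h3, h4, h5⟩ := hrc y x hadj
    exact ⟨q, p, h3.symm, h2.symm, h1.symm, fun h => h5 h.symm, fun h => h4 h.symm⟩
  · rw [ds_rr, not_not] at hadj
    have h2 : x.2 ≠ y.2 := by
      intro h2
      exact hne (by rw [Prod.ext hadj h2])
    have hi : 0 < m := by omega
    refine ⟨.inl (⟨0, hi⟩, M ⟨0, hi⟩ x.1 ^^ x.2), .inl (⟨0, hi⟩, !(M ⟨0, hi⟩ x.1 ^^ x.2)),
      ?_, ?_, ?_, ?_, ?_⟩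
    · rw [ds_rl]
      exact bool_e _ _
    · rw [ds_ll]
      exact ⟨rfl, by simp⟩
    · rw [ds_lr]
      change (!(M ⟨0, hi⟩ x.1 ^^ x.2) ^^ y.2) = M ⟨0, hi⟩ y.1
      rw [← hadj]
      exact bool_g _ _ _ h2
    · rw [ds_rl]
      exact bool_f _ _
    · rw [ds_lr]
      change ¬ ((M ⟨0, hi⟩ x.1 ^^ x.2) ^^ y.2) = M ⟨0, hi⟩ y.1
      rw [← hadj]
      exact bool_h _ _ _ h2

/-! ## Claws -/

theorem ds_not_line {m n : ℕ} (M : Fin m → Fin n → Bool) (hm : 3 ≤ m) (hn : 1 ≤ n) :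
    ¬ IsLineGraphOfBipartite (dsplit M) := by
  set z : Fin n := ⟨0, by omega⟩ with hz
  have hadj : ∀ i : Fin m, (dsplit M).Adj (.inr (z, false)) (.inl (i, M i z)) := by
    intro i
    rw [ds_rl]
    change (M i z ^^ false) = M i z
    simp
  have hno : ∀ i i' : Fin m, i ≠ i' → ¬ (dsplit M).Adj (.inl (i, M i z)) (.inl (i', M i' z)) := by
    intro i i' hii
    rw [ds_ll]
    exact fun h => hii h.1
  have hne : ∀ i i' : Fin m, i ≠ i' →
      (.inl (i, M i z) : (Fin m × Bool) ⊕ (Fin n × Bool)) ≠ .inl (i', M i' z) := by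
    intro i i' hii he
    exact hii (congrArg Prod.fst (Sum.inl.inj he))
  have h01 : (⟨0, by omega⟩ : Fin m) ≠ ⟨1, by omega⟩ := by
    intro h
    rw [Fin.mk.injEq] at h
    omega
  have h02 : (⟨0, by omega⟩ : Fin m) ≠ ⟨2, by omega⟩ := by
    intro h
    rw [Fin.mk.injEq] at h
    omega
  have h12 : (⟨1, by omega⟩ : Fin m) ≠ ⟨2, by omega⟩ := by
    intro h
    rw [Fin.mk.injEq] at h
    omega
  exact not_line_of_claw (dsplit M) _ _ _ _ (hadj _) (hadj _) (hadj _) (hne _ _ h01)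
    (hne _ _ h02) (hne _ _ h12) (hno _ _ h01) (hno _ _ h02) (hno _ _ h12)

end Pool.Agent.Y27.EP
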