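import Mathlib
import Pool.Agent.Y27.EP.DS2

set_option autoImplicit false

namespace Pool.Agent.Y27.EP

open SimpleGraph Pool.Agent.H171R2.EP Pool.Agent.H171R2.Hole

/-- A partition as in (a) written with labels, keeping the sets. -/
theorem lab_of_sets {V : Type} {G : SimpleGraph V} (V₁ V₂ A₁ B₁ A₂ B₂ : Set V)
    (hV : V₁ ∪ V₂ = Set.univ) (hd : Disjoint V₁ V₂)
    (hA1 : A₁ ⊆ V₁) (hB1 : B₁ ⊆ V₁) (hA2 : A₂ ⊆ V₂) (hB2 : B₂ ⊆ V₂)
    (ha1 : A₁.Nonempty) (hb1 : B₁.Nonempty) (ha2 : A₂.Nonempty) (hb2 : B₂.Nonempty)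
    (hdis1 : Disjoint A₁ B₁) (hdis2 : Disjoint A₂ B₂)
    (hadj : ∀ x ∈ V₁, ∀ y ∈ V₂, G.Adj x y ↔ (x ∈ A₁ ∧ y ∈ A₂) ∨ (x ∈ B₁ ∧ y ∈ B₂)) :
    ∃ (s : V → Bool) (c : V → Fin 3), Lab G s c ∧ (∀ x, s x = true ↔ x ∈ V₁) ∧
      (∀ x, s x = true → c x = 0 → x ∈ A₁) ∧ (∀ x, s x = true → c x = 1 → x ∈ B₁) := by
  classical
  obtain ⟨a1, ha1⟩ := ha1
  obtain ⟨b1, hb1⟩ := hb1
  obtain ⟨a2, ha2⟩ := ha2
  obtain ⟨b2, hb2⟩ := hb2
  rw [Set.disjoint_left] at hd hdis1 hdis2
  have hc0 : ∀ x, x ∈ A₁ ∨ x ∈ A₂ →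
      (if x ∈ A₁ ∨ x ∈ A₂ then (0 : Fin 3) else if x ∈ B₁ ∨ x ∈ B₂ then 1 else 2) = 0 :=
    fun x hx => if_pos hx
  have hnB : ∀ x, x ∈ B₁ ∨ x ∈ B₂ → ¬ (x ∈ A₁ ∨ x ∈ A₂) := by
    rintro x (hx | hx) (hx' | hx')
    · exact hdis1 hx' hx
    · exact hd (hB1 hx) (hA2 hx')
    · exact hd (hA1 hx') (hB2 hx)
    · exact hdis2 hx' hx
  have hc1 : ∀ x, x ∈ B₁ ∨ x ∈ B₂ →
      (if x ∈ A₁ ∨ x ∈ A₂ then (0 : Fin 3) else if x ∈ B₁ ∨ x ∈ B₂ then 1 else 2) = 1 := by
    intro x hx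
    rw [if_neg (hnB x hx), if_pos hx]
  refine ⟨fun x => decide (x ∈ V₁),
    fun x => if x ∈ A₁ ∨ x ∈ A₂ then 0 else if x ∈ B₁ ∨ x ∈ B₂ then 1 else 2,
    ⟨?_, ⟨a1, ?_, ?_⟩, ⟨b1, ?_, ?_⟩, ⟨a2, ?_, ?_⟩, ⟨b2, ?_, ?_⟩⟩, fun x => by simp, ?_, ?_⟩
  · intro x y hx hy
    have hx1 : x ∈ V₁ := of_decide_eq_true hx
    have hy1 : y ∉ V₁ := of_decide_eq_false hy
    have hy2 : y ∈ V₂ := by
      have : y ∈ V₁ ∪ V₂ := by rw [hV]; trivial
      rcases this with h | h
      · exact absurd h hy1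
      · exact h
    have hx2 : x ∉ V₂ := fun h => hd hx1 h
    rw [hadj x hx1 y hy2]
    have g1 : x ∉ A₂ := fun h => hx2 (hA2 h)
    have g2 : x ∉ B₂ := fun h => hx2 (hB2 h)
    have g3 : y ∉ A₁ := fun h => hy1 (hA1 h)
    have g4 : y ∉ B₁ := fun h => hy1 (hB1 h)
    have g5 : x ∈ A₁ → x ∉ B₁ := fun h => hdis1 h
    have g6 : y ∈ A₂ → y ∉ B₂ := fun h => hdis2 h
    simp only [g1, g2, g3, g4, or_false, false_or]
    by_cases k1 : x ∈ A₁ <;> by_cases k2 : x ∈ B₁ <;> by_cases k3 : y ∈ A₂ <;>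
      by_cases k4 : y ∈ B₂ <;> simp_all
  · exact decide_eq_true (hA1 ha1)
  · exact hc0 _ (Or.inl ha1)
  · exact decide_eq_true (hB1 hb1)
  · exact hc1 _ (Or.inl hb1)
  · exact decide_eq_false (fun h => hd h (hA2 ha2))
  · exact hc0 _ (Or.inr ha2)
  · exact decide_eq_false (fun h => hd h (hB2 hb2))
  · exact hc1 _ (Or.inr hb2)
  · intro x hx h0
    have hx1 : x ∈ V₁ := of_decide_eq_true hx
    dsimp only at h0
    by_cases k1 : x ∈ A₁ ∨ x ∈ A₂
    · rcases k1 with k1 | k1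
      · exact k1
      · exact absurd (hA2 k1) (fun h => hd hx1 h)
    · rw [if_neg k1] at h0
      by_cases k2 : x ∈ B₁ ∨ x ∈ B₂
      · rw [if_pos k2] at h0
        exact absurd h0 (by decide)
      · rw [if_neg k2] at h0
        exact absurd h0 (by decide)
  · intro x hx h0
    have hx1 : x ∈ V₁ := of_decide_eq_true hx
    dsimp only at h0
    by_cases k1 : x ∈ A₁ ∨ x ∈ A₂
    · rw [if_pos k1] at h0
      exact absurd h0 (by decide)
    · rw [if_neg k1] at h0
      by_cases k2 : x ∈ B₁ ∨ x ∈ B₂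
      · rcases k2 with k2 | k2
        · exact k2
        · exact absurd (hB2 k2) (fun h => hd hx1 h)
      · rw [if_neg k2] at h0
        exact absurd h0 (by decide)

/-- A side consisting of two adjacent vertices, one in `A` and one in `B`, violates (b). -/
theorem two_vertex_side {V : Type} (G : SimpleGraph V) (U A B : Set V) (a b : V)
    (hU : ∀ x, x ∈ U ↔ x = a ∨ x = b) (ha : a ∈ A) (hb : b ∈ B) (hab : G.Adj a b) :
    ¬ SideCond G U A B := by
  rintro ⟨-, h⟩
  have haU : a ∈ U := (hU a).2 (Or.inl rfl)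
  have hbU : b ∈ U := (hU b).2 (Or.inr rfl)
  let e : Fin 2 ≃ U := Equiv.ofBijective (fun i => if i = 0 then ⟨a, haU⟩ else ⟨b, hbU⟩) (by
    constructor
    · intro i j hij
      have hne : (⟨a, haU⟩ : U) ≠ ⟨b, hbU⟩ := by
        intro h
        exact hab.ne (congrArg Subtype.val h)
      fin_cases i <;> fin_cases j
      · rfl
      · exact absurd hij hne
      · exact absurd hij hne.symm
      · rfl
    · rintro ⟨x, hx⟩
      rcases (hU x).1 hx with rfl | rfl
      · exact ⟨0, rfl⟩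
      · exact ⟨1, rfl⟩)
  have e0 : ((e 0 : U) : V) = a := rfl
  have e1 : ((e 1 : U) : V) = b := rfl
  let φ : pathGraph (1 + 1) ≃g G.induce U := ⟨e, by
    intro i j
    rw [pathGraph_adj]
    change G.Adj ((e i : U) : V) ((e j : U) : V) ↔ _
    fin_cases i <;> fin_cases j
    · change G.Adj a a ↔ _
      simp
    · change G.Adj a b ↔ _
      simp [hab]
    · change G.Adj b a ↔ _
      simp [hab.symm]
    · change G.Adj b b ↔ _
      simp⟩
  have := h 1 φ.toEmbedding ⟨by exact ha, by exact hb, by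
    intro j hj0 hj1
    exfalso
    fin_cases j
    · exact hj0 rfl
    · exact hj1 rfl⟩
  exact this.false φ.symm

section
variable {m n : ℕ} {M : Fin m → Fin n → Bool} {s : (Fin m × Bool) ⊕ (Fin n × Bool) → Bool}
  {c : (Fin m × Bool) ⊕ (Fin n × Bool) → Fin 3}

theorem bool_k : ∀ s x : Bool, (s ^^ (s ^^ x)) = x := by decide
theorem bool_m : ∀ t b : Bool, ¬ t = b → b = !t := by decide
theorem bool_n : ∀ t b : Bool, ¬ t = b → t = !b := by decide
theorem bool_l : ∀ b : Bool, b = false ∨ b = true := by decide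

theorem colsP (hL : Lab (dsplit M) s c) (j : Fin n) (h0 : ∀ t, s (.inr (j, t)) = false)
    (hc : c (.inr (j, false)) = c (.inr (j, true))) (a : Fin m × Bool) : s (.inl a) = false := by
  by_contra hs
  have hs' : s (.inl a) = true := by simpa using hs
  obtain ⟨g1, -⟩ := id hL
  have h1 : (dsplit M).Adj (.inl a) (.inr (j, a.2 ^^ M a.1 j)) := by
    rw [ds_lr]
    exact bool_k _ _
  have h2 : ¬ (dsplit M).Adj (.inl a) (.inr (j, !(a.2 ^^ M a.1 j))) := by
    rw [ds_lr]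
    exact bool_j _ _
  have e1 := (g1 _ _ hs' (h0 _)).1 h1
  apply h2
  refine (g1 _ _ hs' (h0 _)).2 ⟨?_, e1.2⟩
  rw [e1.1]
  rcases bool_l (a.2 ^^ M a.1 j) with hb | hb
  · rw [hb]
    exact hc
  · rw [hb]
    exact hc.symm

theorem splitcase (hL : Lab (dsplit M) s c) (hn : 3 ≤ n) (j : Fin n) (t : Bool)
    (hx : s (.inr (j, t)) = true)
    (ho : ∀ z : Fin n × Bool, z.1 ≠ j → s (.inr z) = false) : False := by
  obtain ⟨g1, g2, g3, -, -⟩ := id hL
  obtain ⟨l, hl⟩ : ∃ l : Fin n, l ≠ j := by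
    by_cases hj : (j : ℕ) = 0
    · exact ⟨⟨1, by omega⟩, fun h => by rw [Fin.ext_iff] at h; simp only at h; omega⟩
    · exact ⟨⟨0, by omega⟩, fun h => by rw [Fin.ext_iff] at h; simp only at h; omega⟩
  have hcl : ∀ b, c (.inr (l, b)) = c (.inr (j, t)) := by
    intro b
    have h1 : (dsplit M).Adj (.inr (j, t)) (.inr (l, b)) := by
      rw [ds_rr]
      exact hl.symm
    exact ((g1 _ _ hx (ho (l, b) hl)).1 h1).1.symm
  have hrow := colsP hL l (fun b => ho (l, b) hl) ((hcl false).trans (hcl true).symm)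
  -- `(j, !t)` is the only other candidate; it would be in the same class or not adjacent
  have hall : ∀ x, s x = true → c x = c (.inr (j, t)) := by
    intro x hx'
    rcases x with a | z
    · rw [hrow a] at hx'
      exact absurd hx' (by decide)
    · have hz : z.1 = j := by
        by_contra hz
        rw [ho z hz] at hx'
        exact absurd hx' (by decide)
      have h1 : (dsplit M).Adj (.inr z) (.inr (l, false)) := by
        rw [ds_rr, hz]
        exact hl.symm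
      exact (((g1 _ _ hx' (ho (l, false) hl)).1 h1).1).trans (hcl false)
  obtain ⟨x, hx1, hx2⟩ := g2
  obtain ⟨y, hy1, hy2⟩ := g3
  have := (hall x hx1).trans (hall y hy1).symm
  rw [hx2, hy2] at this
  exact absurd this (by decide)

theorem step1 (hL : Lab (dsplit M) s c) (hm : 1 ≤ m) (hn : 3 ≤ n) (x y : Fin n × Bool)
    (hx : s (.inr x) = true) (hy : s (.inr y) = false) : False := by
  obtain ⟨g1, -, -, -, -⟩ := id hL
  have hF : ∀ x y : Fin n × Bool, s (.inr x) = true → s (.inr y) = false → x.1 ≠ y.1 →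
      c (.inr x) = c (.inr y) ∧ c (.inr x) ≠ 2 := by
    intro x y hx hy hxy
    exact (g1 _ _ hx hy).1 ((ds_rr M x y).2 hxy)
  by_cases hsplit : ∃ (j : Fin n) (t : Bool), s (.inr (j, t)) = true ∧ s (.inr (j, !t)) = false
  · obtain ⟨j, t, hjt, hjt'⟩ := hsplit
    by_cases hF1 : ∀ z : Fin n × Bool, z.1 ≠ j → s (.inr z) = false
    · exact splitcase hL hn j t hjt hF1
    by_cases hF2 : ∀ z : Fin n × Bool, z.1 ≠ j → s (.inr z) = true
    · exact splitcase hL.swap hn j (!t) (by simp [hjt']) (fun z hz => by simp [hF2 z hz])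
    rw [not_forall] at hF1 hF2
    obtain ⟨w, hw⟩ := hF1
    obtain ⟨z, hz⟩ := hF2
    rw [Classical.not_imp] at hw hz
    obtain ⟨hwj, hw⟩ := hw
    obtain ⟨hzj, hz⟩ := hz
    have hw' : s (.inr w) = true := by simpa using hw
    have hz' : s (.inr z) = false := by simpa using hz
    have hno : ¬ (c (.inr (j, t)) = c (.inr (j, !t)) ∧ c (.inr (j, t)) ≠ 2) := by
      intro h
      have := (g1 _ _ hjt hjt').2 h
      rw [ds_rr] at this
      exact this rfl
    have hsame : ∀ w z : Fin n × Bool, w.1 ≠ j → z.1 ≠ j → s (.inr w) = true →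
        s (.inr z) = false → w.1 = z.1 := by
      intro w z hwj hzj hw hz
      by_contra hwz
      have a1 := hF (j, t) z hjt hz hzj.symm
      have a2 := hF w (j, !t) hw hjt' hwj
      have a3 := hF w z hw hz hwz
      apply hno
      exact ⟨by rw [a1.1, ← a3.1, a2.1], a1.2⟩
    have hwz := hsame w z hwj hzj hw' hz'
    -- a third column
    obtain ⟨l, hlj, hlw⟩ : ∃ l : Fin n, l ≠ j ∧ l ≠ w.1 := by
      by_contra hcon
      rw [not_exists] at hcon
      have h0 := hcon ⟨0, by omega⟩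
      have h1 := hcon ⟨1, by omega⟩
      have h2 := hcon ⟨2, by omega⟩
      simp only [ne_eq, Fin.ext_iff] at h0 h1 h2
      omega
    rcases bool_l (s (.inr (l, false))) with hs | hs
    · exact hlw (hsame w (l, false) hwj hlj hw' hs).symm
    · exact hlw ((hsame (l, false) z hlj hzj hs hz').trans hwz.symm)
  · have hcon : ∀ (j : Fin n) (t : Bool), s (.inr (j, t)) = true → s (.inr (j, !t)) = true := by
      intro j t h
      by_contra h'
      exact hsplit ⟨j, t, h, by simpa using h'⟩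
    have hxall : ∀ t, s (.inr (x.1, t)) = true := by
      intro t
      by_cases ht : t = x.2
      · rw [ht]
        exact hx
      · have : t = !x.2 := bool_n _ _ ht
        rw [this]
        exact hcon _ _ hx
    have hyall : ∀ t, s (.inr (y.1, t)) = false := by
      intro t
      by_contra h'
      have h' : s (.inr (y.1, t)) = true := by simpa using h'
      have : s (.inr y) = true := by
        by_cases ht : t = y.2
        · rw [ht] at h'
          exact h'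
        · have h2 : y.2 = !t := bool_m _ _ ht
          have h3 := hcon _ _ h'
          rw [← h2] at h3
          exact h3
      rw [hy] at this
      exact absurd this (by decide)
    have hxy : x.1 ≠ y.1 := by
      intro h
      have h1 := hxall y.2
      rw [h] at h1
      rw [hyall y.2] at h1
      exact absurd h1 (by decide)
    have hcc : ∀ t t', c (.inr (x.1, t)) = c (.inr (y.1, t')) :=
      fun t t' => (hF (x.1, t) (y.1, t') (hxall t) (hyall t') hxy).1
    have r1 := colsP hL y.1 hyall ((hcc false false).symm.trans (hcc false true))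
      (⟨0, by omega⟩, false)
    have r2 := colsP hL.swap x.1 (fun t => by simp [hxall t])
      ((hcc false false).trans (hcc true false).symm) (⟨0, by omega⟩, false)
    simp [r1] at r2

theorem step2 (hL : Lab (dsplit M) s c) (hR : RowsOK M)
    (hcol : ∀ z : Fin n × Bool, s (.inr z) = false) (a a' : Fin m × Bool)
    (hs : s (.inl a) = true) (hs' : s (.inl a') = true) (hc : c (.inl a) = 0)
    (hc' : c (.inl a') = 1) : a.1 = a'.1 ∧ a.2 ≠ a'.2 := by
  obtain ⟨g1, -, -, -, -⟩ := id hL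
  have h1 : ∀ a : Fin m × Bool, s (.inl a) = true → ∀ j,
      c (.inl a) = c (.inr (j, a.2 ^^ M a.1 j)) := by
    intro a hs j
    exact ((g1 _ _ hs (hcol _)).1 ((ds_lr M _ _).2 (bool_k _ _))).1
  have h2 : ∀ j, (a.2 ^^ M a.1 j) ≠ (a'.2 ^^ M a'.1 j) := by
    intro j hj
    have e1 := h1 a hs j
    have e2 := h1 a' hs' j
    rw [hj, hc] at e1
    rw [hc'] at e2
    exact absurd (e1.trans e2.symm) (by decide)
  have h3 : a.1 = a'.1 := by
    by_contra hne
    obtain ⟨⟨j, hj⟩, ⟨j', hj'⟩⟩ := hR _ _ hne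
    have k1 := h2 j
    have k2 := h2 j'
    rw [hj] at k1
    revert k1 k2 hj'
    generalize a.2 = p
    generalize a'.2 = q
    generalize M a'.1 j = u
    generalize M a.1 j' = v
    generalize M a'.1 j' = w
    revert p q u v w
    decide
  refine ⟨h3, fun h4 => ?_⟩
  obtain ⟨x, hx, -⟩ := hL.2.2.2.1
  -- some column exists, as otherwise there is nothing on the other side of class `0`
  by_cases hn : Nonempty (Fin n)
  · obtain ⟨j⟩ := hn
    exact h2 j (by rw [h3, h4])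
  · -- no column: all vertices are row vertices
    obtain ⟨-, -, -, ⟨y, hy, hyc⟩, ⟨w, hw, hwc⟩⟩ := id hL
    rcases y with y | y
    · have e1 : (dsplit M).Adj (.inl a) (.inl y) := (g1 _ _ hs hy).2 ⟨hc.trans hyc.symm, by
        rw [hc]; decide⟩
      rcases w with w | w
      · have e2 : (dsplit M).Adj (.inl a') (.inl w) := (g1 _ _ hs' hw).2 ⟨hc'.trans hwc.symm, by
          rw [hc']; decide⟩
        have haa : a = a' := Prod.ext h3 h4
        rw [haa, hc'] at hc
        exact absurd hc (by decide)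
      · exact absurd ⟨w.1⟩ hn
    · exact absurd ⟨y.1⟩ hn

theorem twoJoin_aux (hm : 1 ≤ m) (hn : 3 ≤ n) (hR : RowsOK M)
    (V₁ V₂ A₁ B₁ A₂ B₂ : Set ((Fin m × Bool) ⊕ (Fin n × Bool)))
    (hV : V₁ ∪ V₂ = Set.univ) (hd : Disjoint V₁ V₂)
    (hA1 : A₁ ⊆ V₁) (hB1 : B₁ ⊆ V₁) (hA2 : A₂ ⊆ V₂) (hB2 : B₂ ⊆ V₂)
    (ha1 : A₁.Nonempty) (hb1 : B₁.Nonempty) (ha2 : A₂.Nonempty) (hb2 : B₂.Nonempty)
    (hdis1 : Disjoint A₁ B₁) (hdis2 : Disjoint A₂ B₂)
    (hadj : ∀ x ∈ V₁, ∀ y ∈ V₂, (dsplit M).Adj x y ↔ (x ∈ A₁ ∧ y ∈ A₂) ∨ (x ∈ B₁ ∧ y ∈ B₂))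
    (hside : SideCond (dsplit M) V₁ A₁ B₁) : ∃ z : Fin n × Bool, .inr z ∈ V₁ := by
  by_contra hcon
  rw [not_exists] at hcon
  obtain ⟨s, c, hL, hsV, hsA, hsB⟩ := lab_of_sets V₁ V₂ A₁ B₁ A₂ B₂ hV hd hA1 hB1 hA2 hB2 ha1 hb1
    ha2 hb2 hdis1 hdis2 hadj
  have hcol : ∀ z : Fin n × Bool, s (.inr z) = false := by
    intro z
    by_contra h
    exact hcon z ((hsV _).1 (by simpa using h))
  obtain ⟨g1, ⟨x, hx, hx0⟩, ⟨y, hy, hy1⟩, -, -⟩ := id hL
  rcases x with a | z
  · rcases y with b | z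
    · obtain ⟨h1, h2⟩ := step2 hL hR hcol a b hx hy hx0 hy1
      refine two_vertex_side (dsplit M) V₁ A₁ B₁ (.inl a) (.inl b) ?_ (hsA _ hx hx0)
        (hsB _ hy hy1) ((ds_ll M _ _).2 ⟨h1, h2⟩) hside
      intro w
      rw [← hsV]
      constructor
      · intro hw
        rcases w with d | z
        · have hcl := (g1 _ _ hw (hcol (⟨0, by omega⟩, d.2 ^^ M d.1 ⟨0, by omega⟩))).1
            ((ds_lr M _ _).2 (bool_k _ _))
          have hc01 : c (.inl d) = 0 ∨ c (.inl d) = 1 := by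
            have h := hcl.2
            revert h
            generalize c (.inl d) = v
            revert v
            decide
          rcases hc01 with h | h
          · obtain ⟨k1, k2⟩ := step2 hL hR hcol d b hw hy h hy1
            left
            have : d = a := Prod.ext (k1.trans h1.symm) (by
              revert k2 h2
              generalize d.2 = p
              generalize a.2 = q
              generalize b.2 = r
              revert p q r
              decide)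
            rw [this]
          · obtain ⟨k1, k2⟩ := step2 hL hR hcol a d hx hw hx0 h
            right
            have : d = b := Prod.ext (k1.symm.trans h1) (by
              revert k2 h2
              generalize d.2 = p
              generalize a.2 = q
              generalize b.2 = r
              revert p q r
              decide)
            rw [this]
        · rw [hcol z] at hw
          exact absurd hw (by decide)
      · rintro (rfl | rfl)
        · exact hx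
        · exact hy
    · rw [hcol z] at hy
      exact absurd hy (by decide)
  · rw [hcol z] at hx
    exact absurd hx (by decide)

theorem ds_no_twoJoin (hm : 1 ≤ m) (hn : 3 ≤ n) (hR : RowsOK M) : ¬ HasTwoJoin (dsplit M) := by
  rintro ⟨V₁, V₂, A₁, B₁, A₂, B₂, hV, hd, hA1, hB1, hA2, hB2, ha1, hb1, ha2, hb2, hdis1, hdis2,
    hadj, hS1, hS2⟩
  obtain ⟨z, hz⟩ := twoJoin_aux hm hn hR V₁ V₂ A₁ B₁ A₂ B₂ hV hd hA1 hB1 hA2 hB2 ha1 hb1 ha2 hb2
    hdis1 hdis2 hadj hS1
  obtain ⟨w, hw⟩ := twoJoin_aux hm hn hR V₂ V₁ A₂ B₂ A₁ B₁ (by rw [Set.union_comm]; exact hV)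
    hd.symm hA2 hB2 hA1 hB1 ha2 hb2 ha1 hb1 hdis2 hdis1 (by
      intro x hx y hy
      rw [(dsplit M).adj_comm, hadj y hy x hx]
      constructor
      · rintro (h | h)
        · exact Or.inl h.symm
        · exact Or.inr h.symm
      · rintro (h | h)
        · exact Or.inl h.symm
        · exact Or.inr h.symm) hS2
  obtain ⟨s, c, hL, hsV, -, -⟩ := lab_of_sets V₁ V₂ A₁ B₁ A₂ B₂ hV hd hA1 hB1 hA2 hB2 ha1 hb1
    ha2 hb2 hdis1 hdis2 hadj
  refine step1 hL hm hn z w ((hsV _).2 hz) ?_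
  by_contra h
  have h' : s (.inr w) = true := by simpa using h
  exact Set.disjoint_left.1 hd ((hsV _).1 h') hw

end

/-- a 2-join is invariant under isomorphism -/
theorem sideCond_of_iso {V W : Type} {G : SimpleGraph V} {G' : SimpleGraph W} (φ : G ≃g G')
    (U A B : Set W) (h : SideCond G' U A B) :
    SideCond G (φ ⁻¹' U) (φ ⁻¹' A) (φ ⁻¹' B) := by
  obtain ⟨⟨k, f, hf⟩, h2⟩ := h
  let ψ : G.induce (φ ⁻¹' U) ≃g G'.induce U :=
    ⟨⟨fun x => ⟨φ x, x.2⟩, fun y => ⟨φ.symm y, by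
      change φ (φ.symm y) ∈ U
      rw [φ.apply_symm_apply]
      exact y.2⟩, fun x => Subtype.ext (φ.symm_apply_apply _),
      fun y => Subtype.ext (φ.apply_symm_apply _)⟩, by
      intro x y
      exact φ.map_adj_iff⟩
  have hψ : ∀ y : U, φ ((ψ.symm y : φ ⁻¹' U) : V) = y := fun y => φ.apply_symm_apply _
  refine ⟨⟨k, f.trans ψ.symm.toEmbedding, ?_, ?_, ?_⟩, ?_⟩
  · change φ ((ψ.symm (f 0) : φ ⁻¹' U) : V) ∈ A
    rw [hψ]
    exact hf.1
  · change φ ((ψ.symm (f (Fin.last k)) : φ ⁻¹' U) : V) ∈ B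
    rw [hψ]
    exact hf.2.1
  · intro j hj hj'
    change φ ((ψ.symm (f j) : φ ⁻¹' U) : V) ∉ A ∪ B
    rw [hψ]
    exact hf.2.2 j hj hj'
  · intro k' f' hf'
    constructor
    intro χ
    exact (h2 k' (f'.trans ψ.toEmbedding) ⟨hf'.1, hf'.2.1, hf'.2.2⟩).false (ψ.symm.trans χ)

theorem twoJoin_of_iso {V W : Type} {G : SimpleGraph V} {G' : SimpleGraph W} (φ : G ≃g G')
    (h : HasTwoJoin G') : HasTwoJoin G := by
  obtain ⟨V₁, V₂, A₁, B₁, A₂, B₂, hV, hd, hA1, hB1, hA2, hB2, ⟨a1, ha1⟩, ⟨b1, hb1⟩, ⟨a2, ha2⟩,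
    ⟨b2, hb2⟩, hdis1, hdis2, hadj, hS1, hS2⟩ := h
  refine ⟨φ ⁻¹' V₁, φ ⁻¹' V₂, φ ⁻¹' A₁, φ ⁻¹' B₁, φ ⁻¹' A₂, φ ⁻¹' B₂, ?_, hd.preimage _,
    fun x hx => hA1 hx, fun x hx => hB1 hx, fun x hx => hA2 hx, fun x hx => hB2 hx,
    ⟨φ.symm a1, ?_⟩, ⟨φ.symm b1, ?_⟩, ⟨φ.symm a2, ?_⟩, ⟨φ.symm b2, ?_⟩,
    hdis1.preimage _, hdis2.preimage _, ?_, sideCond_of_iso φ _ _ _ hS1,
    sideCond_of_iso φ _ _ _ hS2⟩
  · rw [← Set.preimage_union, hV, Set.preimage_univ]
  · change φ (φ.symm a1) ∈ A₁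
    rw [φ.apply_symm_apply]
    exact ha1
  · change φ (φ.symm b1) ∈ B₁
    rw [φ.apply_symm_apply]
    exact hb1
  · change φ (φ.symm a2) ∈ A₂
    rw [φ.apply_symm_apply]
    exact ha2
  · change φ (φ.symm b2) ∈ B₂
    rw [φ.apply_symm_apply]
    exact hb2
  · intro x hx y hy
    rw [← φ.map_adj_iff]
    exact hadj _ hx _ hy

end Pool.Agent.Y27.EP
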