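import Mathlib
import Pool.Agent.Y27.EP.DS3

set_option autoImplicit false

namespace Pool.Agent.Y27.EP

open SimpleGraph Pool.Agent.H171R2.EP Pool.Agent.H171R2.Hole

/-- `G` has no homogeneous set: no set of at least two vertices, other than the set of all vertices,
such that every vertex outside is adjacent to all or to none of its elements. -/
def NoHomogeneousSet {V : Type} (G : SimpleGraph V) : Prop :=
  ∀ X : Set V, (∃ a ∈ X, ∃ b ∈ X, a ≠ b) →
    (∀ v, v ∉ X → (∀ x ∈ X, G.Adj v x) ∨ (∀ x ∈ X, ¬ G.Adj v x)) → X = Set.univ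

theorem bool_p : ∀ a b : Bool, a ≠ b → b = !a := by decide
theorem bool_q : ∀ s t x : Bool, ¬ ((s ^^ t) = x ∧ ((!s) ^^ t) = x) := by decide
theorem bool_r : ∀ s t x : Bool, ¬ (¬ (s ^^ t) = x ∧ ¬ ((!s) ^^ t) = x) := by decide
theorem bool_s : ∀ s t x : Bool, ¬ ((s ^^ t) = x ∧ (s ^^ (!t)) = x) := by decide
theorem bool_t : ∀ s t x : Bool, ¬ (¬ (s ^^ t) = x ∧ ¬ (s ^^ (!t)) = x) := by decide

theorem bool_w : ∀ p q r : Bool, ((!p) ^^ q) = r → ¬ (p ^^ (!q)) = r → False := by decide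

theorem ds_prime {m n : ℕ} (M : Fin m → Fin n → Bool) (hm : 1 ≤ m) (hn : 1 ≤ n) :
    NoHomogeneousSet (dsplit M) := by
  intro X hX hom
  -- a row vertex outside
  have R1 : ∀ (j : Fin n) (t : Bool), .inr (j, t) ∈ X → .inr (j, !t) ∈ X →
      ∀ a : Fin m × Bool, .inl a ∈ X := by
    intro j t h1 h2 a
    by_contra ha
    rcases hom _ ha with h | h
    · exact bool_s _ _ _ ⟨(ds_lr M a (j, t)).1 (h _ h1), (ds_lr M a (j, !t)).1 (h _ h2)⟩
    · exact bool_t _ _ _ ⟨fun e => h _ h1 ((ds_lr M a (j, t)).2 e),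
        fun e => h _ h2 ((ds_lr M a (j, !t)).2 e)⟩
  have R2 : ∀ (i : Fin m) (s : Bool), .inl (i, s) ∈ X → .inl (i, !s) ∈ X →
      ∀ z : Fin n × Bool, .inr z ∈ X := by
    intro i s h1 h2 z
    by_contra hz
    rcases hom _ hz with h | h
    · exact bool_q _ _ _ ⟨(ds_rl M (i, s) z).1 (h _ h1), (ds_rl M (i, !s) z).1 (h _ h2)⟩
    · exact bool_r _ _ _ ⟨fun e => h _ h1 ((ds_rl M (i, s) z).2 e),
        fun e => h _ h2 ((ds_rl M (i, !s) z).2 e)⟩
  have R3 : ∀ (i : Fin m) (s : Bool), .inl (i, s) ∈ X → .inl (i, !s) ∈ X → X = Set.univ := by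
    intro i s h1 h2
    have h3 := R2 i s h1 h2
    have h4 := R1 ⟨0, by omega⟩ false (h3 _) (h3 _)
    rw [Set.eq_univ_iff_forall]
    rintro (a | z)
    · exact h4 a
    · exact h3 z
  have R4 : ∀ (j : Fin n) (t : Bool), .inr (j, t) ∈ X → .inr (j, !t) ∈ X → X = Set.univ := by
    intro j t h1 h2
    have h3 := R1 j t h1 h2
    exact R3 ⟨0, by omega⟩ false (h3 _) (h3 _)
  obtain ⟨a, ha, b, hb, hab⟩ := hX
  have R5 : ∀ (x : Fin m × Bool) (z : Fin n × Bool), .inl x ∈ X → .inr z ∈ X →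
      X = Set.univ := by
    intro x z hx hz
    by_cases h1 : .inl (x.1, !x.2) ∈ X
    · exact R3 x.1 x.2 hx h1
    by_cases h2 : .inr (z.1, !z.2) ∈ X
    · exact R4 z.1 z.2 hz h2
    exfalso
    have e1 : (dsplit M).Adj (.inl (x.1, !x.2)) (.inr z) := by
      rcases hom _ h1 with h | h
      · exact h _ hz
      · exact absurd ((ds_ll M (x.1, !x.2) x).2 ⟨rfl, by simp⟩) (h _ hx)
    have e2 : ¬ (dsplit M).Adj (.inr (z.1, !z.2)) (.inl x) := by
      rcases hom _ h2 with h | h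
      · exact absurd rfl ((ds_rr M (z.1, !z.2) z).1 (h _ hz))
      · exact h _ hx
    rw [ds_lr] at e1
    rw [ds_rl] at e2
    exact bool_w _ _ _ e1 e2
  rcases a with x | x <;> rcases b with y | y
  · by_cases h : x.1 = y.1
    · have h2 : y.2 = !x.2 := bool_p _ _ (fun h2 => hab (by rw [Prod.ext h h2]))
      have hy : y = (x.1, !x.2) := Prod.ext h.symm h2
      rw [hy] at hb
      exact R3 x.1 x.2 ha hb
    · by_cases h1 : .inl (x.1, !x.2) ∈ X
      · exact R3 x.1 x.2 ha h1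
      · exfalso
        rcases hom _ h1 with h2 | h2
        · exact h ((ds_ll M (x.1, !x.2) y).1 (h2 _ hb)).1
        · exact h2 _ ha ((ds_ll M (x.1, !x.2) x).2 ⟨rfl, by simp⟩)
  · exact R5 x y ha hb
  · exact R5 y x hb ha
  · by_cases h : x.1 = y.1
    · have h2 : y.2 = !x.2 := bool_p _ _ (fun h2 => hab (by rw [Prod.ext h h2]))
      have hy : y = (x.1, !x.2) := Prod.ext h.symm h2
      rw [hy] at hb
      exact R4 x.1 x.2 ha hb
    · by_cases h1 : .inr (x.1, !x.2) ∈ X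
      · exact R4 x.1 x.2 ha h1
      · exfalso
        rcases hom _ h1 with h2 | h2
        · exact (ds_rr M (x.1, !x.2) x).1 (h2 _ ha) rfl
        · exact h2 _ hb ((ds_rr M (x.1, !x.2) y).2 h)

/-! ## Even pairs, the converse -/

/-- Two row vertices of different rows with the same neighbours among the column vertices form an
even pair. -/
theorem ds_evenPair {m n : ℕ} (M : Fin m → Fin n → Bool) (u v : Fin m × Bool) (huv : u.1 ≠ v.1)
    (hN : ∀ z : Fin n × Bool, (dsplit M).Adj (.inl u) (.inr z) ↔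
      (dsplit M).Adj (.inl v) (.inr z)) : IsEvenPair (dsplit M) (.inl u) (.inl v) := by
  refine ⟨fun h => huv (by rw [Sum.inl.inj h]), ?_⟩
  rintro k ⟨f, hf0, hfk⟩
  set E : ℕ → ℕ → Prop := fun i j => (i + 1 = j ∨ j + 1 = i) with hE
  have hadj : ∀ (i j : ℕ) (hi : i < k + 1) (hj : j < k + 1),
      (dsplit M).Adj (f ⟨i, hi⟩) (f ⟨j, hj⟩) ↔ E i j := by
    intro i j hi hj
    rw [f.map_adj_iff, path_adj]
  have h0 : f ⟨0, by omega⟩ = .inl u := hf0
  have hk : f ⟨k, by omega⟩ = .inl v := hfk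
  have hinj : ∀ (i j : ℕ) (hi : i < k + 1) (hj : j < k + 1), f ⟨i, hi⟩ = f ⟨j, hj⟩ → i = j := by
    intro i j hi hj h
    have := f.injective h
    rw [Fin.mk.injEq] at this
    exact this
  have hk0 : k ≠ 0 := by
    rintro rfl
    have := h0.symm.trans hk
    exact huv (by rw [Sum.inl.inj this])
  -- a column vertex adjacent to `v` is adjacent to `u` and conversely
  have c1 : ∀ (i : ℕ) (hi : i < k + 1) (z : Fin n × Bool), f ⟨i, hi⟩ = .inr z →
      (E 0 i ↔ E k i) := by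
    intro i hi z hz
    rw [← hadj 0 i (by omega) hi, ← hadj k i (by omega) hi, h0, hk, hz]
    exact hN z
  -- three consecutive vertices are not all row vertices
  have c2 : ∀ (i : ℕ) (hi : i + 2 < k + 1), (∃ z, f ⟨i, by omega⟩ = .inr z) ∨
      (∃ z, f ⟨i + 1, by omega⟩ = .inr z) ∨ (∃ z, f ⟨i + 2, hi⟩ = .inr z) := by
    intro i hi
    rcases h3 : f ⟨i, by omega⟩ with x | x
    · rcases h4 : f ⟨i + 1, by omega⟩ with y | y
      · rcases h5 : f ⟨i + 2, hi⟩ with z | z
        · exfalso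
          have e1 := (hadj i (i + 1) (by omega) (by omega)).2 (Or.inl rfl)
          have e2 := (hadj (i + 1) (i + 2) (by omega) hi).2 (Or.inl rfl)
          rw [h3, h4, ds_ll] at e1
          rw [h4, h5, ds_ll] at e2
          have hxz : x = z := Prod.ext (e1.1.trans e2.1) (B2 _ _ _ e1.2 e2.2)
          have := hinj i (i + 2) (by omega) hi (by rw [h3, h5, hxz])
          omega
        · exact Or.inr (Or.inr ⟨z, rfl⟩)
      · exact Or.inr (Or.inl ⟨y, rfl⟩)
    · exact Or.inl ⟨x, rfl⟩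
  -- `k = 1` is impossible
  have hk1 : k ≠ 1 := by
    rintro rfl
    have e1 := (hadj 0 1 (by omega) (by omega)).2 (Or.inl rfl)
    rw [h0, hk, ds_ll] at e1
    exact huv e1.1
  by_contra hodd
  have hk3 : 3 ≤ k := by
    by_contra h
    have : k = 2 := by omega
    rw [this] at hodd
    exact hodd (by decide)
  -- the second vertex is not a column vertex
  have d1 : ¬ ∃ z, f ⟨1, by omega⟩ = .inr z := by
    rintro ⟨z, hz⟩
    have := (c1 1 (by omega) z hz).1 (Or.inl rfl)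
    simp only [hE] at this
    omega
  -- column vertices have index at most two
  have d2 : ∀ (i : ℕ) (hi : i < k + 1) (z : Fin n × Bool), f ⟨i, hi⟩ = .inr z → i ≤ 2 := by
    intro i hi z hz
    rcases h1 : f ⟨1, by omega⟩ with y | y
    · have e1 := (hadj 0 1 (by omega) (by omega)).2 (Or.inl rfl)
      rw [h0, h1, ds_ll] at e1
      have e2 : (dsplit M).Adj (f ⟨0, by omega⟩) (f ⟨i, hi⟩) ∨
          (dsplit M).Adj (f ⟨1, by omega⟩) (f ⟨i, hi⟩) := by
        rw [h0, h1, hz, ds_lr, ds_lr, ← e1.1]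
        have e3 := bool_p _ _ e1.2
        rw [e3]
        by_contra hc
        rw [not_or] at hc
        exact bool_r _ _ _ hc
      rw [hadj, hadj] at e2
      simp only [hE] at e2
      omega
    · exact absurd ⟨y, h1⟩ d1
  obtain ⟨l, rfl⟩ : ∃ l, k = l + 3 := ⟨k - 3, by omega⟩
  -- the last vertices
  have d3 : ¬ ∃ z, f ⟨l + 2, by omega⟩ = .inr z := by
    rintro ⟨z, hz⟩
    have := (c1 (l + 2) (by omega) z hz).2 (Or.inr rfl)
    simp only [hE] at this
    omega
  rcases c2 (l + 1) (by omega) with ⟨z, hz⟩ | h | ⟨z, hz⟩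
  · have := d2 (l + 1) (by omega) z hz
    have hl : l = 0 ∨ l = 1 := by omega
    rcases hl with rfl | rfl
    · exact d1 ⟨z, hz⟩
    · exact hodd (by decide)
  · exact d3 h
  · have h5 : f ⟨l + 1 + 2, by omega⟩ = .inl v := hk
    rw [h5] at hz
    exact absurd hz (by simp)

theorem bool_u : ∀ s t x y : Bool, x = y → ((s ^^ t) = x ↔ (s ^^ t) = y) := by decide
theorem bool_v : ∀ s t x y : Bool, x ≠ y → ((s ^^ t) = x ↔ ((!s) ^^ t) = y) := by decide

theorem ds_epf_iff {m n : ℕ} (M : Fin m → Fin n → Bool) (hm : 1 ≤ m) (hn : 2 ≤ n) :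
    EvenPairFree (dsplit M) ↔ RowsOK M := by
  refine ⟨fun hE i i' hii => ?_, ds_epf M hm hn⟩
  constructor
  · by_contra hcon
    rw [not_exists] at hcon
    refine hE _ _ (ds_evenPair M (i, false) (i', true) hii ?_)
    intro z
    rw [ds_lr, ds_lr]
    exact bool_v _ _ _ _ (hcon z.1)
  · by_contra hcon
    rw [not_exists] at hcon
    refine hE _ _ (ds_evenPair M (i, false) (i', false) hii ?_)
    intro z
    rw [ds_lr, ds_lr]
    exact bool_u _ _ _ _ (not_not.1 (hcon z.1))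

/-- any two different columns agree in some row and differ in some row -/
theorem rowsOK_coM {m n : ℕ} (M : Fin m → Fin n → Bool) :
    RowsOK (coM M) ↔ ∀ j j' : Fin n, j ≠ j' → (∃ i, M i j = M i j') ∧ (∃ i, M i j ≠ M i j') := by
  constructor
  · intro h j j' hj
    obtain ⟨⟨i, hi⟩, ⟨i', hi'⟩⟩ := h j j' hj
    refine ⟨⟨i, ?_⟩, ⟨i', ?_⟩⟩
    · simpa [coM] using hi
    · simpa [coM] using hi'
  · intro h j j' hj
    obtain ⟨⟨i, hi⟩, ⟨i', hi'⟩⟩ := h j j' hj
    refine ⟨⟨i, ?_⟩, ⟨i', ?_⟩⟩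
    · simpa [coM] using hi
    · simpa [coM] using hi'

/-! ## Existence -/

theorem exists_fin {V : Type} [Fintype V] {N : ℕ} (h : Fintype.card V = N) (G' : SimpleGraph V) :
    ∃ G : SimpleGraph (Fin N), Nonempty (G ≃g G') := by
  let e : V ≃ Fin N := Fintype.equivFinOfCardEq h
  exact ⟨G'.comap e.symm, ⟨⟨e.symm, Iff.rfl⟩⟩⟩

theorem prime_of_iso {V W : Type} {G : SimpleGraph V} {G' : SimpleGraph W} (φ : G ≃g G')
    (h : NoHomogeneousSet G') : NoHomogeneousSet G := by
  intro X ⟨a, ha, b, hb, hab⟩ hom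
  have hmem : ∀ x, φ x ∈ φ '' X ↔ x ∈ X := by
    intro x
    constructor
    · rintro ⟨y, hy, he⟩
      rw [← φ.injective he]
      exact hy
    · exact fun hx => ⟨x, hx, rfl⟩
  have h1 := h (φ '' X) ⟨φ a, ⟨a, ha, rfl⟩, φ b, ⟨b, hb, rfl⟩, fun he => hab (φ.injective he)⟩ (by
    intro v hv
    have hv' : φ.symm v ∉ X := by
      intro hc
      apply hv
      exact ⟨φ.symm v, hc, φ.apply_symm_apply v⟩
    rcases hom _ hv' with h2 | h2
    · left
      rintro _ ⟨x, hx, rfl⟩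
      have := h2 x hx
      rw [← φ.map_adj_iff, φ.apply_symm_apply] at this
      exact this
    · right
      rintro _ ⟨x, hx, rfl⟩ hc
      apply h2 x hx
      rw [← φ.map_adj_iff, φ.apply_symm_apply]
      exact hc)
  rw [Set.eq_univ_iff_forall] at h1 ⊢
  intro x
  exact (hmem x).1 (h1 (φ x))

/-- the identity matrix -/
def idM (m n : ℕ) : Fin m → Fin n → Bool := fun i j => decide (i.val = j.val)

theorem idM_rows {m n : ℕ} (hn : 3 ≤ n) (hmn : m ≤ n) : RowsOK (idM m n) := by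
  intro i i' hii
  have hi := i.2
  have hv : i.val ≠ i'.val := fun h => hii (Fin.ext h)
  constructor
  · obtain ⟨l, hl, h1, h2⟩ : ∃ l, l < n ∧ l ≠ i.val ∧ l ≠ i'.val := by
      by_contra hcon
      rw [not_exists] at hcon
      have h0 := hcon 0
      have h1 := hcon 1
      have h2 := hcon 2
      omega
    refine ⟨⟨l, hl⟩, ?_⟩
    simp only [idM]
    rw [decide_eq_false (fun h => h1 h.symm), decide_eq_false (fun h => h2 h.symm)]
  · refine ⟨⟨i.val, by omega⟩, ?_⟩
    have e1 : idM m n i ⟨i.val, by omega⟩ = true := decide_eq_true rfl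
    have e2 : idM m n i' ⟨i.val, by omega⟩ = false := decide_eq_false (fun h => hv h.symm)
    rw [e1, e2]
    decide

theorem idM_cols {n : ℕ} (hn : 3 ≤ n) : RowsOK (coM (idM n n)) := by
  rw [rowsOK_coM]
  intro j j' hj
  obtain ⟨⟨i, hi⟩, ⟨i', hi'⟩⟩ := idM_rows hn le_rfl j j' hj
  have hsymm : ∀ a b : Fin n, idM n n a b = idM n n b a := by
    intro a b
    simp only [idM]
    by_cases h : a.val = b.val
    · rw [decide_eq_true h, decide_eq_true h.symm]
    · rw [decide_eq_false h, decide_eq_false (fun h' => h h'.symm)]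
  exact ⟨⟨i, by rw [hsymm, hi, hsymm]⟩, ⟨i', by rw [hsymm i', hsymm i']; exact hi'⟩⟩

/-- the main properties of a double split graph whose rows are neither equal nor complementary -/
theorem ds_main {m n : ℕ} (M : Fin m → Fin n → Bool) (hm : 3 ≤ m) (hn : 3 ≤ n) (hR : RowsOK M) :
    IsBerge (dsplit M) ∧ EvenPairFree (dsplit M) ∧ ¬ IsLineGraphOfBipartite (dsplit M) ∧
      ¬ IsLineGraphOfBipartite (dsplit M)ᶜ ∧ ¬ HasTwoJoin (dsplit M) ∧
      NoHomogeneousSet (dsplit M) :=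
  ⟨ds_berge M, ds_epf M (by omega) (by omega) hR, ds_not_line M hm (by omega),
    fun h => ds_not_line (coM M) hn (by omega) (line_of_iso (dsCompl M) h),
    ds_no_twoJoin (by omega) hn hR, ds_prime M (by omega) (by omega)⟩

theorem ds_main_compl {m n : ℕ} (M : Fin m → Fin n → Bool) (hm : 3 ≤ m) (hn : 3 ≤ n)
    (hC : RowsOK (coM M)) : EvenPairFree (dsplit M)ᶜ ∧ ¬ HasTwoJoin (dsplit M)ᶜ :=
  ⟨epf_of_iso (dsCompl M) (ds_epf (coM M) (by omega) (by omega) hC),
    fun h => ds_no_twoJoin (M := coM M) (by omega) hm hC (twoJoin_of_iso (dsCompl M) h)⟩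

end Pool.Agent.Y27.EP
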